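import Mathlib
import Pool.Agent.Helper49.DP.Defs
import Pool.Agent.Helper49.DP.Grade1
import Pool.Agent.Helper49.DP.Grade2

/-!
Project HE (MP_f60bb9_ag).  Block HE-9: depth of quotients of a Noetherian local ring.

* `grade_of_prime`: `x` is a nonzerodivisor on `A ⧸ I`, and `QuotSMulTop x (A ⧸ I) ≃ A ⧸ (I ⊔ (x))`:
  the sequence `x :: rs`.
* `grade_exact`: exact `0 → E' → E → E'' → 0` of finite modules, `GradeGE J E g` and
  `GradeGE J E'' g''` with `g ≤ g'' + 1` give `GradeGE J E' g`.  By the Rees theorem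
  `ModuleCat.exists_isRegular_tfae` (see the proof of `GradeGE.quotSMulTop` in DP/Grade2.lean for the use):
  `Ext^i (A ⧸ J, E') = 0` for `i < g`, since it is between `Ext^(i-1) (A ⧸ J, E'')` and `Ext^i (A ⧸ J, E)`
  (for `i = 0`: `Hom (A ⧸ J, E')` injects in `Hom (A ⧸ J, E)`); the cases of `E = 0`, `E' = 0`,
  `E'' = 0` separately (for the zero module everything is weakly regular).
  `J ≤ 𝔪`.
* `grade_inf`: `0 → A ⧸ I → (A ⧸ I') × (A ⧸ I'') → A ⧸ (I' ⊔ I'') → 0` exact when `I = I' ⊓ I''`; and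
  `GradeGE J (E₁ × E₂) g` from both (by Ext, or `Ext` additive; or use `grade_exact`-like argument for the
  split sequence in the middle term: `Ext^i (A ⧸ J, E₁ × E₂)` is between `Ext^i (A ⧸ J, E₁)` and
  `Ext^i (A ⧸ J, E₂)`).
-/

namespace Pool.Helper49.HE

open Pool.Helper49.DP RingTheory.Sequence

universe u

/-- Everything is weakly regular on the zero module. -/
private theorem gradeGE_of_subsingleton {A : Type u} [CommRing A] {J : Ideal A} {E' : Type*} [AddCommGroup E']
    [Module A E'] [Subsingleton E'] (g : ℕ) : GradeGE J E' g := by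
  refine ⟨List.replicate g 0, by simp, fun r hr => ?_, ⟨fun i hi => ?_⟩⟩
  · rw [List.eq_of_mem_replicate hr]
    exact zero_mem J
  · have : Subsingleton (E' ⧸ (Ideal.ofList ((List.replicate g (0 : A)).take i) • ⊤ :
        Submodule A E')) := Submodule.Quotient.subsingleton_iff.2 (Subsingleton.elim _ _)
    exact Function.injective_of_subsingleton _

private theorem smul_top_lt {A : Type u} [CommRing A] [IsLocalRing A] {J : Ideal A}
    (hJ : J ≤ IsLocalRing.maximalIdeal A) (E' : Type*) [AddCommGroup E'] [Module A E']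
    [Module.Finite A E'] [Nontrivial E'] : J • (⊤ : Submodule A E') < ⊤ :=
  (Submodule.top_ne_ideal_smul_of_le_jacobson_annihilator
    (hJ.trans (IsLocalRing.maximalIdeal_le_jacobson _))).symm.lt_top

open CategoryTheory CategoryTheory.Abelian in
/-- The Rees theorem, in terms of `GradeGE` (also for the zero module). -/
private theorem gradeGE_iff {A : Type u} [CommRing A] [IsNoetherianRing A] [IsLocalRing A] {J : Ideal A}
    (hJ : J ≤ IsLocalRing.maximalIdeal A) (E : Type u) [AddCommGroup E] [Module A E]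
    [Module.Finite A E] (g : ℕ) :
    GradeGE J E g ↔ ∀ i < g, Subsingleton (Ext (ModuleCat.of A (Shrink.{u} (A ⧸ J)))
      (ModuleCat.of A E) i) := by
  rcases subsingleton_or_nontrivial E with hE | hE
  · refine ⟨fun _ i _ => ⟨fun x y => ?_⟩, fun _ => gradeGE_of_subsingleton g⟩
    have h0 : 𝟙 (ModuleCat.of A E) = 0 := by
      ext z
      exact Subsingleton.elim (α := E) _ _
    have h1 : ∀ x : Ext (ModuleCat.of A (Shrink.{u} (A ⧸ J))) (ModuleCat.of A E) i, x = 0 := by
      intro x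
      rw [← x.comp_mk₀_id, h0, Ext.mk₀_zero, Ext.comp_zero]
    rw [h1 x, h1 y]
  · have hT := ModuleCat.exists_isRegular_tfae J g (ModuleCat.of A E) (smul_top_lt hJ E)
    constructor
    · rintro ⟨rs, h1, h2, h3⟩
      have hreg : IsRegular E rs :=
        (IsLocalRing.isRegular_iff_isWeaklyRegular_of_subset_maximalIdeal
          fun a ha => hJ (h2 a ha)).2 h3
      have hex : ∃ rs : List A, rs.length = g ∧ (∀ r ∈ rs, r ∈ J) ∧
          IsRegular (ModuleCat.of A E) rs := ⟨rs, h1, h2, hreg⟩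
      exact (hT.out 3 1).1 hex
    · intro h
      obtain ⟨rs', h1', h2', h3'⟩ : ∃ rs : List A, rs.length = g ∧ (∀ r ∈ rs, r ∈ J) ∧
          IsRegular (ModuleCat.of A E) rs := (hT.out 1 3).1 h
      exact ⟨rs', h1', h2', h3'.toIsWeaklyRegular⟩

open CategoryTheory in
private theorem shortExact_of {A : Type u} [CommRing A]
    {E' E E'' : Type u} [AddCommGroup E'] [Module A E'] [AddCommGroup E] [Module A E]
    [AddCommGroup E''] [Module A E'']
    (f : E' →ₗ[A] E) (h : E →ₗ[A] E'') (hf : Function.Injective f) (hfh : Function.Exact f h)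
    (hh : Function.Surjective h) :
    (ShortComplex.mk (ModuleCat.ofHom f) (ModuleCat.ofHom h)
      (by ext x; exact hfh.apply_apply_eq_zero x)).ShortExact where
  exact := (ShortComplex.ShortExact.moduleCat_exact_iff_function_exact _).2 hfh
  mono_f := (ModuleCat.mono_iff_injective _).2 hf
  epi_g := (ModuleCat.epi_iff_surjective _).2 hh

open Pointwise in
theorem grade_of_prime {A : Type u} [CommRing A] [IsLocalRing A] {I : Ideal A} {x : A}
    (hx : x ∈ IsLocalRing.maximalIdeal A) (hI : I.IsPrime) (hxI : x ∉ I) {g : ℕ}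
    (h : GradeGE (IsLocalRing.maximalIdeal A) (A ⧸ (I ⊔ Ideal.span {x})) g) :
    GradeGE (IsLocalRing.maximalIdeal A) (A ⧸ I) (g + 1) := by
  have hreg : IsSMulRegular (A ⧸ I) x := by
    intro y z hyz
    obtain ⟨y, rfl⟩ := Ideal.Quotient.mk_surjective y
    obtain ⟨z, rfl⟩ := Ideal.Quotient.mk_surjective z
    have h1 : x * (y - z) ∈ I := by
      rw [mul_sub]
      exact Ideal.Quotient.eq.1 hyz
    exact Ideal.Quotient.eq.2 ((hI.mem_or_mem h1).resolve_left hxI)
  let φ : (A ⧸ I) →ₗ[A] A ⧸ (I ⊔ Ideal.span {x}) := Submodule.factor le_sup_left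
  have hφ : Function.Surjective φ := Submodule.factor_surjective _
  have hker : LinearMap.ker φ = x • (⊤ : Submodule A (A ⧸ I)) := by
    ext z
    obtain ⟨a, rfl⟩ := Submodule.Quotient.mk_surjective I z
    rw [LinearMap.mem_ker, Submodule.mem_smul_pointwise_iff_exists]
    have h0 : φ (Submodule.Quotient.mk a) = Submodule.Quotient.mk a := rfl
    rw [h0, Submodule.Quotient.mk_eq_zero, Submodule.mem_sup]
    constructor
    · rintro ⟨i, hi, c, hc, hic⟩
      obtain ⟨c, rfl⟩ := Ideal.mem_span_singleton'.1 hc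
      refine ⟨Submodule.Quotient.mk c, Submodule.mem_top, ?_⟩
      rw [← Submodule.Quotient.mk_smul, Submodule.Quotient.eq, smul_eq_mul]
      have : x * c - a = -i := by linear_combination hic
      rw [this]
      exact neg_mem hi
    · rintro ⟨z, -, hz⟩
      obtain ⟨c, rfl⟩ := Submodule.Quotient.mk_surjective I z
      rw [← Submodule.Quotient.mk_smul, Submodule.Quotient.eq, smul_eq_mul] at hz
      refine ⟨-(x * c - a), neg_mem hz, x * c, ?_, by ring⟩
      exact Ideal.mem_span_singleton'.2 ⟨c, mul_comm _ _⟩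
  have e : QuotSMulTop x (A ⧸ I) ≃ₗ[A] A ⧸ (I ⊔ Ideal.span {x}) :=
    (Submodule.quotEquivOfEq _ _ hker.symm).trans (φ.quotKerEquivOfSurjective hφ)
  obtain ⟨rs, h1, h2, h3⟩ := h.of_equiv e.symm
  refine ⟨x :: rs, by rw [List.length_cons, h1], fun r hr => ?_, (isWeaklyRegular_cons_iff _ _ _).2 ⟨hreg, h3⟩⟩
  rcases List.mem_cons.1 hr with rfl | hr
  · exact hx
  · exact h2 r hr

open CategoryTheory CategoryTheory.Abelian in
theorem grade_exact {A : Type u} [CommRing A] [IsNoetherianRing A] [IsLocalRing A]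
    {J : Ideal A} (hJ : J ≤ IsLocalRing.maximalIdeal A)
    {E' E E'' : Type u} [AddCommGroup E'] [Module A E'] [Module.Finite A E']
    [AddCommGroup E] [Module A E] [Module.Finite A E]
    [AddCommGroup E''] [Module A E''] [Module.Finite A E'']
    (f : E' →ₗ[A] E) (h : E →ₗ[A] E'') (hf : Function.Injective f) (hfh : Function.Exact f h)
    (hh : Function.Surjective h) {g g'' : ℕ} (hg : g ≤ g'' + 1) (h1 : GradeGE J E g)
    (h2 : GradeGE J E'' g'') : GradeGE J E' g := by
  rw [gradeGE_iff hJ] at h1 h2 ⊢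
  have hS := shortExact_of f h hf hfh hh
  intro i hi
  have key : ∀ x : Ext (ModuleCat.of A (Shrink.{u} (A ⧸ J))) (ModuleCat.of A E') i, x = 0 := by
    intro x
    have hx : x.comp (Ext.mk₀ (ModuleCat.ofHom f)) (add_zero i) = 0 := (h1 i hi).elim _ _
    rcases Nat.eq_zero_or_pos i with rfl | hpos
    · have : Mono (ModuleCat.ofHom f) := (ModuleCat.mono_iff_injective _).2 hf
      exact Ext.postcomp_mk₀_injective_of_mono _ (ModuleCat.ofHom f) (hx.trans (map_zero _).symm)
    · obtain ⟨j, rfl⟩ : ∃ j, i = j + 1 := ⟨i - 1, by omega⟩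
      obtain ⟨x₃, hx₃⟩ := Ext.covariant_sequence_exact₁ (ModuleCat.of A (Shrink.{u} (A ⧸ J))) hS x hx rfl
      rw [← hx₃, (h2 j (by omega)).elim x₃ 0, Ext.zero_comp]
  exact ⟨fun x y => by rw [key x, key y]⟩

open CategoryTheory CategoryTheory.Abelian in
theorem grade_middle {A : Type u} [CommRing A] [IsNoetherianRing A] [IsLocalRing A]
    {J : Ideal A} (hJ : J ≤ IsLocalRing.maximalIdeal A)
    {E' E E'' : Type u} [AddCommGroup E'] [Module A E'] [Module.Finite A E']
    [AddCommGroup E] [Module A E] [Module.Finite A E]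
    [AddCommGroup E''] [Module A E''] [Module.Finite A E'']
    (f : E' →ₗ[A] E) (h : E →ₗ[A] E'') (hf : Function.Injective f) (hfh : Function.Exact f h)
    (hh : Function.Surjective h) {g : ℕ} (h1 : GradeGE J E' g)
    (h2 : GradeGE J E'' g) : GradeGE J E g := by
  rw [gradeGE_iff hJ] at h1 h2 ⊢
  have hS := shortExact_of f h hf hfh hh
  intro i hi
  have key : ∀ x : Ext (ModuleCat.of A (Shrink.{u} (A ⧸ J))) (ModuleCat.of A E) i, x = 0 := by
    intro x
    have hx : x.comp (Ext.mk₀ (ModuleCat.ofHom h)) (add_zero i) = 0 := (h2 i hi).elim _ _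
    obtain ⟨x₁, hx₁⟩ := Ext.covariant_sequence_exact₂ (ModuleCat.of A (Shrink.{u} (A ⧸ J))) hS x hx
    rw [← hx₁, (h1 i hi).elim x₁ 0, Ext.zero_comp]
  exact ⟨fun x y => by rw [key x, key y]⟩

theorem grade_inf {A : Type u} [CommRing A] [IsNoetherianRing A] [IsLocalRing A]
    {I I' I'' : Ideal A} (hI' : I ≤ I') (hI'' : I ≤ I'') (h : I' ⊓ I'' ≤ I) {g g' : ℕ}
    (hg : g ≤ g' + 1) (h1 : GradeGE (IsLocalRing.maximalIdeal A) (A ⧸ I') g)
    (h2 : GradeGE (IsLocalRing.maximalIdeal A) (A ⧸ I'') g)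
    (h3 : GradeGE (IsLocalRing.maximalIdeal A) (A ⧸ (I' ⊔ I'')) g') :
    GradeGE (IsLocalRing.maximalIdeal A) (A ⧸ I) g := by
  have hprod : GradeGE (IsLocalRing.maximalIdeal A) ((A ⧸ I') × (A ⧸ I'')) g :=
    grade_middle le_rfl (LinearMap.inl A (A ⧸ I') (A ⧸ I'')) (LinearMap.snd A (A ⧸ I') (A ⧸ I''))
      LinearMap.inl_injective Function.Exact.inl_snd LinearMap.snd_surjective h1 h2
  let f : (A ⧸ I) →ₗ[A] (A ⧸ I') × (A ⧸ I'') := (Submodule.factor hI').prod (Submodule.factor hI'')
  let k : (A ⧸ I') × (A ⧸ I'') →ₗ[A] A ⧸ (I' ⊔ I'') :=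
    (Submodule.factor le_sup_left).comp (LinearMap.fst A _ _) - (Submodule.factor le_sup_right).comp (LinearMap.snd A _ _)
  refine grade_exact le_rfl f k ?_ ?_ ?_ hg hprod h3
  · rw [injective_iff_map_eq_zero]
    intro z hz
    obtain ⟨z, rfl⟩ := Submodule.Quotient.mk_surjective I z
    rw [Submodule.Quotient.mk_eq_zero]
    have hz1 : (Submodule.Quotient.mk z : A ⧸ I') = 0 := congrArg Prod.fst hz
    have hz2 : (Submodule.Quotient.mk z : A ⧸ I'') = 0 := congrArg Prod.snd hz
    exact h ⟨(Submodule.Quotient.mk_eq_zero _).1 hz1, (Submodule.Quotient.mk_eq_zero _).1 hz2⟩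
  · rintro ⟨y, z⟩
    obtain ⟨y, rfl⟩ := Submodule.Quotient.mk_surjective I' y
    obtain ⟨z, rfl⟩ := Submodule.Quotient.mk_surjective I'' z
    constructor
    · intro hyz
      have h4 : (Submodule.Quotient.mk (y - z) : A ⧸ (I' ⊔ I'')) = 0 := hyz
      rw [Submodule.Quotient.mk_eq_zero] at h4
      obtain ⟨a, ha, b, hb, hab⟩ := Submodule.mem_sup.1 h4
      refine ⟨Submodule.Quotient.mk (y - a), Prod.ext ?_ ?_⟩
      · show (Submodule.Quotient.mk (y - a) : A ⧸ I') = Submodule.Quotient.mk y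
        rw [Submodule.Quotient.eq]
        have : y - a - y = -a := by ring
        rw [this]
        exact neg_mem ha
      · show (Submodule.Quotient.mk (y - a) : A ⧸ I'') = Submodule.Quotient.mk z
        rw [Submodule.Quotient.eq]
        have : y - a - z = b := by linear_combination -hab
        rw [this]
        exact hb
    · rintro ⟨w, hw⟩
      obtain ⟨w, rfl⟩ := Submodule.Quotient.mk_surjective I w
      rw [← hw]
      show (Submodule.Quotient.mk (w - w) : A ⧸ (I' ⊔ I'')) = 0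
      rw [sub_self, Submodule.Quotient.mk_zero]
  · intro z
    obtain ⟨z, rfl⟩ := Submodule.Quotient.mk_surjective _ z
    refine ⟨(Submodule.Quotient.mk z, 0), ?_⟩
    show (Submodule.Quotient.mk z : A ⧸ (I' ⊔ I'')) - (Submodule.factor le_sup_right) 0 = Submodule.Quotient.mk z
    rw [map_zero, sub_zero]

end Pool.Helper49.HE
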