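import Mathlib
import Pool.Agent.Helper49.DP.Defs

/-!
Project HE (MP_f60bb9_ag).  The Hochster–Eagon family of ideals.  `X` is a `t × M` matrix,
`ρ` a bound: the first `j` columns have rank at most `ρ j`.
-/

namespace Pool.Helper49.HE

universe u

/-- Admissible bounds: `ρ 0 = 0` and steps `0` or `1`. -/
def Good (ρ : ℕ → ℕ) : Prop := ρ 0 = 0 ∧ ∀ j, ρ j ≤ ρ (j + 1) ∧ ρ (j + 1) ≤ ρ j + 1

/-- The bounds `ρ`, lowered below `ρ n` on the first `n` columns. -/
def low (ρ : ℕ → ℕ) (n : ℕ) : ℕ → ℕ := fun l => if l ≤ n then min (ρ l) (ρ n - 1) else ρ l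

section

variable {A : Type u} [CommRing A] {t M : ℕ}

/-- The ideal generated by the minors of size `ρ j + 1` of the first `j` columns, `j ≤ M`. -/
def rkIdeal (X : Matrix (Fin t) (Fin M) A) (ρ : ℕ → ℕ) : Ideal A :=
  Ideal.span {d | ∃ j, j ≤ M ∧ ∃ (f : Fin (ρ j + 1) → Fin t) (g : Fin (ρ j + 1) → Fin M),
    (∀ l, (g l : ℕ) < j) ∧ d = (X.submatrix f g).det}

/-- The ideal generated by the rows `p < q` and the first `n` entries of row `q`. -/
def zIdeal (X : Matrix (Fin t) (Fin M) A) (q n : ℕ) : Ideal A :=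
  Ideal.span {d | ∃ (p : Fin t) (l : Fin M),
    ((p : ℕ) < q ∨ ((p : ℕ) = q ∧ (l : ℕ) < n)) ∧ d = X p l}

/-- The ideals of the family. -/
def famIdeal (X : Matrix (Fin t) (Fin M) A) (q : ℕ) (ρ : ℕ → ℕ) (n : ℕ) : Ideal A :=
  zIdeal X q n ⊔ rkIdeal X ρ

end

/-- The bound for the ideal of the `s × s` minors. -/
def rhoA (s : ℕ) : ℕ → ℕ := fun j => min j (s - 1)

/-- The bound for the ideal of the `s × s` minors of the first `m` columns. -/
def rhoB (s m : ℕ) : ℕ → ℕ := fun j => if j ≤ m then min j (s - 1) else s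

/-- The contribution of column `j` to the dimension. -/
def cont (t q : ℕ) (ρ : ℕ → ℕ) (n j : ℕ) : ℕ :=
  if ρ (j + 1) = ρ j then ρ (j + 1) else (if j < n then t - q - 1 else t - q)

/-- The expected dimension of the quotient by `famIdeal X q ρ n` (for `q < t`, or `n = 0`). -/
def dimF (t M q : ℕ) (ρ : ℕ → ℕ) (n : ℕ) : ℕ := ∑ j ∈ Finset.range M, cont t q ρ n j

end Pool.Helper49.HE
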