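import Mathlib
import Pool.Agent.Helper49.HE.Defs

/-!
Project HE (MP_f60bb9_ag).  Block HE-1: ideal identities (any commutative ring).
All minors are `(X.submatrix f g).det` with arbitrary index maps `f`, `g` (they vanish when `f` or `g`
is not injective).  The ideals are `Ideal.span` of sets, so inclusions are checked on generators.

* `famIdeal_map`: `RingHom.map_det`.
* `rkIdeal_anti`: a minor of size `a + 1` lies in the ideal of the minors of size `a' + 1 ≤ a + 1` of the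
  same columns (induction on the size, Laplace expansion `Matrix.det_succ_row_zero`).
* `famIdeal_succ`, `famIdeal_end` (row `q` completely zero is rows `< q + 1` zero; `n = 0` gives no
  condition on row `q + 1`), `famIdeal_zero` (`X q n` is a minor of size `1 = ρ (n + 1) + 1` of the
  first `n + 1` columns).
* `famIdeal_low_sup`: `low ρ n ≤ ρ` and `rkIdeal_anti`.
-/

namespace Pool.Helper49.HE

open Pool.Helper49.DP

universe u v

variable {A : Type u} [CommRing A] {t M : ℕ}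

private theorem zIdeal_map88 {B : Type v} [CommRing B] (h : A →+* B) (X : Matrix (Fin t) (Fin M) A)
    (q n : ℕ) : (zIdeal X q n).map h = zIdeal (X.map h) q n := by
  rw [zIdeal, zIdeal, Ideal.map_span]
  congr 1
  ext d
  constructor
  · rintro ⟨_, ⟨p, l, hpl, rfl⟩, rfl⟩
    exact ⟨p, l, hpl, by simp⟩
  · rintro ⟨p, l, hpl, rfl⟩
    exact ⟨X p l, ⟨p, l, hpl, rfl⟩, by simp⟩

private theorem rkIdeal_map88 {B : Type v} [CommRing B] (h : A →+* B)
    (X : Matrix (Fin t) (Fin M) A) (ρ : ℕ → ℕ) : (rkIdeal X ρ).map h = rkIdeal (X.map h) ρ := by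
  have key : ∀ (k : ℕ) (f : Fin k → Fin t) (g : Fin k → Fin M),
      h (X.submatrix f g).det = ((X.map h).submatrix f g).det := by
    intro k f g
    rw [RingHom.map_det]
    rfl
  rw [rkIdeal, rkIdeal, Ideal.map_span]
  congr 1
  ext d
  constructor
  · rintro ⟨_, ⟨j, hj, f, g, hg, rfl⟩, rfl⟩
    exact ⟨j, hj, f, g, hg, key _ f g⟩
  · rintro ⟨j, hj, f, g, hg, rfl⟩
    exact ⟨(X.submatrix f g).det, ⟨j, hj, f, g, hg, rfl⟩, key _ f g⟩

theorem famIdeal_map {B : Type v} [CommRing B] (h : A →+* B) (X : Matrix (Fin t) (Fin M) A)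
    (q : ℕ) (ρ : ℕ → ℕ) (n : ℕ) :
    (famIdeal X q ρ n).map h = famIdeal (X.map h) q ρ n := by
  rw [famIdeal, famIdeal, Ideal.map_sup, zIdeal_map88, rkIdeal_map88]

private theorem minor_mem88 (X : Matrix (Fin t) (Fin M) A) (j a' : ℕ) (I : Ideal A)
    (hI : ∀ (f : Fin (a' + 1) → Fin t) (g : Fin (a' + 1) → Fin M), (∀ l, (g l : ℕ) < j) →
      (X.submatrix f g).det ∈ I) :
    ∀ a, a' ≤ a → ∀ (f : Fin (a + 1) → Fin t) (g : Fin (a + 1) → Fin M), (∀ l, (g l : ℕ) < j) →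
      (X.submatrix f g).det ∈ I := by
  intro a ha
  induction a, ha using Nat.le_induction with
  | base => exact hI
  | succ b hb ih =>
    intro f g hg
    rw [Matrix.det_succ_row_zero]
    refine Ideal.sum_mem _ fun i _ => ?_
    refine Ideal.mul_mem_left _ _ ?_
    rw [Matrix.submatrix_submatrix]
    exact ih _ _ fun l => hg _

theorem rkIdeal_anti (X : Matrix (Fin t) (Fin M) A) {ρ ρ' : ℕ → ℕ}
    (h : ∀ j, j ≤ M → ρ' j ≤ ρ j) : rkIdeal X ρ ≤ rkIdeal X ρ' := by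
  rw [rkIdeal, Ideal.span_le]
  rintro _ ⟨j, hj, f, g, hg, rfl⟩
  exact minor_mem88 X j (ρ' j) (rkIdeal X ρ')
    (fun f' g' hg' => Ideal.subset_span ⟨j, hj, f', g', hg', rfl⟩) (ρ j) (h j hj) f g hg

private theorem zIdeal_succ88 (X : Matrix (Fin t) (Fin M) A) {q n : ℕ} (hq : q < t)
    (hn : n < M) :
    zIdeal X q n ⊔ Ideal.span {X ⟨q, hq⟩ ⟨n, hn⟩} = zIdeal X q (n + 1) := by
  apply le_antisymm
  · refine sup_le ?_ ?_
    · rw [zIdeal, Ideal.span_le]
      rintro _ ⟨p, l, hpl, rfl⟩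
      refine Ideal.subset_span ⟨p, l, ?_, rfl⟩
      omega
    · rw [Ideal.span_le, Set.singleton_subset_iff]
      exact Ideal.subset_span ⟨⟨q, hq⟩, ⟨n, hn⟩, Or.inr ⟨rfl, Nat.lt_succ_self n⟩, rfl⟩
  · rw [zIdeal, Ideal.span_le]
    rintro _ ⟨p, l, hpl, rfl⟩
    by_cases h : (p : ℕ) < q ∨ ((p : ℕ) = q ∧ (l : ℕ) < n)
    · exact Ideal.mem_sup_left (Ideal.subset_span ⟨p, l, h, rfl⟩)
    · have hp : p = ⟨q, hq⟩ := Fin.ext (by simp only; omega)
      have hl : l = ⟨n, hn⟩ := Fin.ext (by simp only; omega)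
      subst hp
      subst hl
      exact Ideal.mem_sup_right (Ideal.subset_span rfl)

theorem famIdeal_succ (X : Matrix (Fin t) (Fin M) A) (ρ : ℕ → ℕ) {q n : ℕ} (hq : q < t)
    (hn : n < M) :
    famIdeal X q ρ n ⊔ Ideal.span {X ⟨q, hq⟩ ⟨n, hn⟩} = famIdeal X q ρ (n + 1) := by
  rw [famIdeal, famIdeal, ← zIdeal_succ88 X hq hn, sup_right_comm]

theorem famIdeal_end (X : Matrix (Fin t) (Fin M) A) (ρ : ℕ → ℕ) (q : ℕ) :
    famIdeal X q ρ M = famIdeal X (q + 1) ρ 0 := by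
  rw [famIdeal, famIdeal]
  congr 1
  rw [zIdeal, zIdeal]
  congr 1
  ext d
  constructor
  · rintro ⟨p, l, hpl, rfl⟩
    exact ⟨p, l, by omega, rfl⟩
  · rintro ⟨p, l, hpl, rfl⟩
    exact ⟨p, l, by omega, rfl⟩

private theorem entry_mem88 (X : Matrix (Fin t) (Fin M) A) {ρ : ℕ → ℕ} {j : ℕ} (hj : j ≤ M)
    (h : ρ j = 0) (p : Fin t) (l : Fin M) (hl : (l : ℕ) < j) : X p l ∈ rkIdeal X ρ := by
  have key : ∀ k, k = 0 →
      (X.submatrix (fun _ : Fin (k + 1) => p) (fun _ : Fin (k + 1) => l)).det = X p l := by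
    rintro _ rfl
    simp
  rw [← key (ρ j) h]
  exact Ideal.subset_span ⟨j, hj, _, _, fun _ => hl, rfl⟩

theorem famIdeal_mono (X : Matrix (Fin t) (Fin M) A) (ρ : ℕ → ℕ) (q : ℕ) {n n' : ℕ}
    (h : n ≤ n') : famIdeal X q ρ n ≤ famIdeal X q ρ n' := by
  refine sup_le_sup_right ?_ _
  rw [zIdeal, Ideal.span_le]
  rintro _ ⟨p, l, hpl, rfl⟩
  exact Ideal.subset_span ⟨p, l, by omega, rfl⟩

theorem famIdeal_zero (X : Matrix (Fin t) (Fin M) A) {ρ : ℕ → ℕ} {n : ℕ} (q : ℕ) (hn : n < M)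
    (h : ρ (n + 1) = 0) : famIdeal X q ρ n = famIdeal X q ρ (n + 1) := by
  apply le_antisymm (famIdeal_mono X ρ q (Nat.le_succ n))
  refine sup_le ?_ le_sup_right
  rw [zIdeal, Ideal.span_le]
  rintro _ ⟨p, l, hpl, rfl⟩
  by_cases h' : (p : ℕ) < q ∨ ((p : ℕ) = q ∧ (l : ℕ) < n)
  · exact Ideal.mem_sup_left (Ideal.subset_span ⟨p, l, h', rfl⟩)
  · exact Ideal.mem_sup_right (entry_mem88 X hn h p l (by omega))

private theorem low_le88 (ρ : ℕ → ℕ) (n j : ℕ) : low ρ n j ≤ ρ j := by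
  unfold low
  split_ifs
  · exact min_le_left _ _
  · exact le_rfl

theorem famIdeal_low_le (X : Matrix (Fin t) (Fin M) A) (ρ : ℕ → ℕ) (q n : ℕ) :
    famIdeal X q ρ n ≤ famIdeal X q (low ρ n) n :=
  sup_le_sup_left (rkIdeal_anti X fun j _ => low_le88 ρ n j) _

theorem famIdeal_low_sup (X : Matrix (Fin t) (Fin M) A) (ρ : ℕ → ℕ) (q : ℕ) {n n' : ℕ}
    (h : n ≤ n') :
    famIdeal X q (low ρ n) n ⊔ famIdeal X q ρ n' = famIdeal X q (low ρ n) n' := by
  apply le_antisymm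
  · refine sup_le (famIdeal_mono X _ q h) ?_
    exact sup_le_sup_left (rkIdeal_anti X fun j _ => low_le88 ρ n j) _
  · refine sup_le ?_ ?_
    · exact le_sup_of_le_right le_sup_left
    · exact le_sup_of_le_left le_sup_right

end Pool.Helper49.HE
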