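import Mathlib
import Pool.Agent.Helper49.HE.Defs
import Pool.Agent.Helper49.HE.Fam1

/-!
Project HE (MP_f60bb9_ag).  Block HE-3: the ideals of all minors (any commutative ring).
All minors are `(X.submatrix f g).det` with arbitrary index maps `f`, `g` (they vanish when `f` or `g`
is not injective).  The ideals are `Ideal.span` of sets, so inclusions are checked on generators.

* `famIdeal_rhoA`: `zIdeal X 0 0 = ⊥`; for `j ≤ s - 1` the minors of size `j + 1` of the first `j` columns
  vanish; for `j ≥ s` they are `s × s` minors; `j = M` gives all.  (If `M < s` both sides vanish.)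
* `famIdeal_rhoB`: `M = m + 1`; for `j ≤ m` as before; for `j = m + 1` the minors of size
  `s + 1` of all columns: if the last column is used at most once, expansion along this column shows that the
  minor is in the ideal of the `s × s` minors of the first `m` columns; used twice: it vanishes.
  (If `m < s`, still true.)
-/

namespace Pool.Helper49.HE

open Pool.Helper49.DP

universe u v

variable {A : Type u} [CommRing A] {t M : ℕ}

private theorem det_zero38 {k : ℕ} (X : Matrix (Fin t) (Fin M) A) (f : Fin k → Fin t)
    (g : Fin k → Fin M) {j : ℕ} (hj : j < k) (hg : ∀ l, (g l : ℕ) < j) :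
    (X.submatrix f g).det = 0 := by
  obtain ⟨a, b, hab, h⟩ := Fintype.exists_ne_map_eq_of_card_lt
    (fun l : Fin k => (⟨g l, hg l⟩ : Fin j)) (by simpa using hj)
  have h' : g a = g b := by
    apply Fin.ext
    simpa using congrArg Fin.val h
  exact Matrix.det_zero_of_column_eq hab fun i => by simp [Matrix.submatrix_apply, h']

private theorem zIdeal38 (X : Matrix (Fin t) (Fin M) A) : zIdeal X 0 0 = ⊥ := by
  rw [zIdeal, Ideal.span_eq_bot]
  rintro d ⟨p, l, h, -⟩
  omega

private theorem mem_minor38 {p q : ℕ} (X : Matrix (Fin p) (Fin q) A) {s : ℕ} (f : Fin s → Fin p)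
    (g : Fin s → Fin q) : (X.submatrix f g).det ∈ minorIdeal s X :=
  Ideal.subset_span ⟨(f, g), rfl⟩

private theorem mem_minor38' {m : ℕ} (X : Matrix (Fin t) (Fin (m + 1)) A) {s : ℕ}
    (f : Fin s → Fin t) (g : Fin s → Fin (m + 1)) (hg : ∀ l, (g l : ℕ) < m) :
    (X.submatrix f g).det ∈ minorIdeal s (X.submatrix id Fin.castSucc) := by
  have h : X.submatrix f g = (X.submatrix id Fin.castSucc).submatrix f
      (fun l => (⟨g l, hg l⟩ : Fin m)) := by
    ext i l
    simp only [Matrix.submatrix_apply, id_eq]
    congr 1
  rw [h]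
  exact mem_minor38 _ _ _

theorem famIdeal_rhoA (X : Matrix (Fin t) (Fin M) A) {s : ℕ} (hs : 0 < s) :
    famIdeal X 0 (rhoA s) 0 = minorIdeal s X := by
  obtain ⟨s, rfl⟩ : ∃ s', s = s' + 1 := ⟨s - 1, by omega⟩
  rw [famIdeal, zIdeal38, bot_sup_eq]
  apply le_antisymm
  · rw [rkIdeal, Ideal.span_le]
    rintro d ⟨j, hj, f, g, hg, rfl⟩
    rcases Nat.lt_or_ge j (s + 1) with h | h
    · have h1 : rhoA (s + 1) j = j := by
        simp only [rhoA]
        omega
      rw [SetLike.mem_coe, det_zero38 X f g (j := j) (by omega) hg]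
      exact Ideal.zero_mem _
    · have h1 : rhoA (s + 1) j = s := by
        simp only [rhoA]
        omega
      revert f g
      rw [h1]
      intro f g hg
      exact mem_minor38 X f g
  · rw [minorIdeal, Ideal.span_le]
    rintro d ⟨⟨f, g⟩, rfl⟩
    rcases Nat.lt_or_ge M (s + 1) with h | h
    · simp only
      rw [SetLike.mem_coe, det_zero38 X f g (j := M) h fun l => (g l).2]
      exact Ideal.zero_mem _
    · refine Ideal.subset_span ⟨M, le_rfl, ?_⟩
      have h1 : rhoA (s + 1) M = s := by
        simp only [rhoA]
        omega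
      rw [h1]
      exact ⟨f, g, fun l => (g l).2, rfl⟩

theorem famIdeal_rhoB {m : ℕ} (X : Matrix (Fin t) (Fin (m + 1)) A) {s : ℕ} (hs : 0 < s) :
    famIdeal X 0 (rhoB s m) 0 = minorIdeal s (X.submatrix id Fin.castSucc) := by
  obtain ⟨s, rfl⟩ : ∃ s', s = s' + 1 := ⟨s - 1, by omega⟩
  rw [famIdeal, zIdeal38, bot_sup_eq]
  apply le_antisymm
  · rw [rkIdeal, Ideal.span_le]
    rintro d ⟨j, hj, f, g, hg, rfl⟩
    rcases Nat.lt_or_ge m j with hmj | hmj
    · have h1 : rhoB (s + 1) m j = s + 1 := by
        simp only [rhoB]
        rw [if_neg (by omega)]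
      revert f g
      rw [h1]
      intro f g _
      by_cases hinj : Function.Injective g
      · obtain ⟨l₀, hl₀⟩ : ∃ l₀, ∀ l, l ≠ l₀ → (g l : ℕ) < m := by
          by_cases hex : ∃ l₀, (g l₀ : ℕ) = m
          · obtain ⟨l₀, h2⟩ := hex
            refine ⟨l₀, fun l hl => ?_⟩
            have h3 : g l ≠ g l₀ := fun h4 => hl (hinj h4)
            have h4 : (g l : ℕ) ≠ m := fun h5 => h3 (Fin.ext (h5.trans h2.symm))
            have h5 := (g l).2
            omega
          · push Not at hex
            refine ⟨0, fun l _ => ?_⟩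
            have h4 := hex l
            have h5 := (g l).2
            omega
        rw [Matrix.det_succ_column _ l₀]
        refine Ideal.sum_mem _ fun i _ => Ideal.mul_mem_left _ _ ?_
        rw [Matrix.submatrix_submatrix]
        exact mem_minor38' X _ _ fun l => hl₀ _ (Fin.succAbove_ne l₀ l)
      · rw [Function.not_injective_iff] at hinj
        obtain ⟨a, b, h2, h3⟩ := hinj
        have h4 : (X.submatrix f g).det = 0 :=
          Matrix.det_zero_of_column_eq h3 fun i => by simp [Matrix.submatrix_apply, h2]
        rw [SetLike.mem_coe, h4]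
        exact Ideal.zero_mem _
    · rcases Nat.lt_or_ge j (s + 1) with h | h
      · have h1 : rhoB (s + 1) m j = j := by
          simp only [rhoB]
          rw [if_pos hmj]
          omega
        rw [SetLike.mem_coe, det_zero38 X f g (j := j) (by omega) hg]
        exact Ideal.zero_mem _
      · have h1 : rhoB (s + 1) m j = s := by
          simp only [rhoB]
          rw [if_pos hmj]
          omega
        revert f g
        rw [h1]
        intro f g hg
        exact mem_minor38' X f g fun l => lt_of_lt_of_le (hg l) hmj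
  · rw [minorIdeal, Ideal.span_le]
    rintro d ⟨⟨f, g⟩, rfl⟩
    rcases Nat.lt_or_ge m (s + 1) with h | h
    · simp only
      rw [SetLike.mem_coe, det_zero38 (X.submatrix id Fin.castSucc) f g (j := m) h
        fun l => (g l).2]
      exact Ideal.zero_mem _
    · refine Ideal.subset_span ⟨m, by omega, ?_⟩
      have h1 : rhoB (s + 1) m m = s := by
        simp only [rhoB]
        rw [if_pos le_rfl]
        omega
      rw [h1]
      refine ⟨f, fun l => (g l).castSucc, fun l => ?_, ?_⟩
      · simp
      · simp only [Matrix.submatrix_submatrix]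
        rfl

end Pool.Helper49.HE
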