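import Mathlib
import Pool.Agent.Helper49.HE.Defs

/-!
Project HE (MP_f60bb9_ag).  Block HE-10: the combinatorics of the bounds and of `dimF`.

`cont t q ρ n j` is `ρ (j + 1)` if `ρ (j + 1) = ρ j`, otherwise `t - q - 1` for `j < n`, `t - q` for `j ≥ n`;
`dimF` is the sum over `j < M`.

* `dimF_jump`: only the term `j = n` changes, by one (`q < t`).
* `dimF_flat`: no jump in `[n, n')` since `ρ` is monotone.
* `dimF_low`: `ρ (n + 1) = ρ n + 1`, `ρ (n + 2) = ρ (n + 1)`.  `low ρ (n + 1) l = ρ l` for `l ≤ n` and `l ≥ n + 2`, and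
  `= ρ n` for `l = n + 1`.  Only the terms `j = n` (`t - q - 1` becomes `ρ n`) and `j = n + 1` (`ρ n + 1` becomes
  `t - q`) change, and the sum is the same.
* `dimF_end`, `dimF_cut`: term by term.  In `dimF_cut` `n + 1 = M`, `ρ (n + 1) = ρ n + 1 = t - q`.
* `dimF_rhoA`, `dimF_rhoB`: `s - 1` jumps with the contribution `t`, the other terms `s - 1`
  (and one more jump at `j = m`).
-/

namespace Pool.Helper49.HE

theorem Good.mono {ρ : ℕ → ℕ} (h : Good ρ) : Monotone ρ :=
  monotone_nat_of_le_succ fun j => (h.2 j).1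

theorem Good.low {ρ : ℕ → ℕ} (h : Good ρ) {n : ℕ} (h0 : 0 < ρ n) (hn : ρ (n + 1) = ρ n) :
    Good (low ρ n) := by
  refine ⟨?_, fun j => ?_⟩
  · unfold HE.low
    rw [if_pos (Nat.zero_le n), h.1, Nat.zero_min]
  · unfold HE.low
    have h1 := h.2 j
    rcases lt_trichotomy j n with hj | hj | hj
    · rw [if_pos hj.le, if_pos (Nat.succ_le_of_lt hj)]
      omega
    · subst hj
      rw [if_pos le_rfl, if_neg (by omega)]
      omega
    · rw [if_neg (by omega), if_neg (by omega)]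
      exact h1

theorem Good.min {ρ : ℕ → ℕ} (h : Good ρ) (c : ℕ) : Good (fun j => min (ρ j) c) := by
  refine ⟨?_, fun j => ?_⟩
  · change Min.min (ρ 0) c = 0
    rw [h.1, Nat.zero_min]
  · have h1 := h.2 j
    change Min.min (ρ j) c ≤ Min.min (ρ (j + 1)) c ∧ Min.min (ρ (j + 1)) c ≤ Min.min (ρ j) c + 1
    omega

theorem low_jump {ρ : ℕ → ℕ} {n : ℕ} (h0 : 0 < ρ n) (hn : ρ (n + 1) = ρ n) :
    low ρ n (n + 1) = low ρ n n + 1 := by
  unfold low
  rw [if_pos le_rfl, if_neg (by omega)]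
  omega

theorem low_of_lt {ρ : ℕ → ℕ} {n l : ℕ} (h : n < l) : low ρ n l = ρ l := by
  unfold low
  rw [if_neg (by omega)]

theorem good_rhoA (s : ℕ) : Good (rhoA s) := by
  refine ⟨?_, fun j => ?_⟩
  · unfold rhoA
    simp
  · unfold rhoA
    omega

theorem good_rhoB {s m : ℕ} (hs : 0 < s) (h : s - 1 ≤ m) : Good (rhoB s m) := by
  refine ⟨?_, fun j => ?_⟩
  · unfold rhoB
    simp
  · unfold rhoB
    rcases lt_trichotomy j m with hj | hj | hj
    · rw [if_pos hj.le, if_pos (Nat.succ_le_of_lt hj)]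
      omega
    · subst hj
      rw [if_pos le_rfl, if_neg (by omega)]
      omega
    · rw [if_neg (by omega), if_neg (by omega)]
      omega

private theorem sum_range_single {M n : ℕ} (hn : n < M) {f g : ℕ → ℕ} {a : ℕ}
    (h : ∀ j, j < M → j ≠ n → f j = g j) (h' : f n = g n + a) :
    ∑ j ∈ Finset.range M, f j = ∑ j ∈ Finset.range M, g j + a := by
  rw [← Finset.add_sum_erase _ f (Finset.mem_range.2 hn), ← Finset.add_sum_erase _ g (Finset.mem_range.2 hn),
    Finset.sum_congr rfl fun j hj => h j (Finset.mem_range.1 (Finset.mem_erase.1 hj).2) (Finset.mem_erase.1 hj).1, h']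
  exact Nat.add_right_comm _ _ _

theorem dimF_jump {t M q : ℕ} {ρ : ℕ → ℕ} {n : ℕ} (hq : q < t) (hn : n < M)
    (h : ρ (n + 1) = ρ n + 1) : dimF t M q ρ n = dimF t M q ρ (n + 1) + 1 := by
  refine sum_range_single hn (fun j _ hj => ?_) ?_
  · unfold cont
    have e : j < n ↔ j < n + 1 := by omega
    simp only [e]
  · unfold cont
    rw [if_neg (by omega), if_neg (by omega), if_neg (by omega), if_pos (by omega)]
    omega

theorem dimF_flat {t M q : ℕ} {ρ : ℕ → ℕ} (hρ : Good ρ) {n n' : ℕ} (hn : n ≤ n')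
    (h : ρ n' = ρ n) : dimF t M q ρ n = dimF t M q ρ n' := by
  refine Finset.sum_congr rfl fun j _ => ?_
  unfold cont
  by_cases h1 : ρ (j + 1) = ρ j
  · rw [if_pos h1, if_pos h1]
  · rw [if_neg h1, if_neg h1]
    by_cases h2 : j < n
    · rw [if_pos h2, if_pos (by omega)]
    · by_cases h3 : j < n'
      · exfalso
        have h4 : ρ n ≤ ρ j := hρ.mono (by omega)
        have h5 : ρ (j + 1) ≤ ρ n' := hρ.mono (by omega)
        have h6 := (hρ.2 j).1
        omega
      · rw [if_neg h2, if_neg h3]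

theorem dimF_low {t M q : ℕ} {ρ : ℕ → ℕ} (hρ : Good ρ) {n : ℕ} (hq : q < t) (hn : n + 1 < M)
    (h : ρ (n + 1) = ρ n + 1) (h' : ρ (n + 2) = ρ (n + 1)) :
    dimF t M q (low ρ (n + 1)) (n + 1) = dimF t M q ρ (n + 1) := by
  have e1 : ∀ l, l ≤ n → low ρ (n + 1) l = ρ l := by
    intro l hl
    unfold low
    rw [if_pos (by omega)]
    have := hρ.mono hl
    omega
  have e2 : low ρ (n + 1) (n + 1) = ρ n := by
    unfold low
    rw [if_pos le_rfl]
    omega
  have e3 : ∀ l, n + 2 ≤ l → low ρ (n + 1) l = ρ l := fun l hl => low_of_lt (by omega)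
  unfold dimF
  have hs : ∀ f : ℕ → ℕ, ∑ j ∈ Finset.range M, f j =
      f n + (f (n + 1) + ∑ j ∈ ((Finset.range M).erase n).erase (n + 1), f j) := by
    intro f
    rw [← Finset.add_sum_erase _ f (Finset.mem_range.2 (by omega : n < M)),
      ← Finset.add_sum_erase ((Finset.range M).erase n) f
        (Finset.mem_erase.2 ⟨by omega, Finset.mem_range.2 hn⟩)]
  rw [hs, hs (cont t q ρ (n + 1))]
  have h1 : ∑ j ∈ ((Finset.range M).erase n).erase (n + 1), cont t q (low ρ (n + 1)) (n + 1) j =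
      ∑ j ∈ ((Finset.range M).erase n).erase (n + 1), cont t q ρ (n + 1) j := by
    refine Finset.sum_congr rfl fun j hj => ?_
    have a1 := (Finset.mem_erase.1 hj).1
    have a2 := (Finset.mem_erase.1 (Finset.mem_erase.1 hj).2).1
    unfold cont
    rcases lt_or_ge j n with hjn | hjn
    · rw [e1 j hjn.le, e1 (j + 1) (by omega)]
    · rw [e3 j (by omega), e3 (j + 1) (by omega)]
  have h2 : cont t q (low ρ (n + 1)) (n + 1) n = ρ n := by
    unfold cont
    rw [e2, e1 n le_rfl, if_pos rfl]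
  have h3 : cont t q ρ (n + 1) n = t - q - 1 := by
    unfold cont
    rw [if_neg (by omega), if_pos (by omega)]
  have h4 : cont t q (low ρ (n + 1)) (n + 1) (n + 1) = t - q := by
    unfold cont
    rw [e2, e3 (n + 1 + 1) le_rfl, if_neg (by
      change ¬ ρ (n + 2) = ρ n
      omega), if_neg (by omega)]
  have h5 : cont t q ρ (n + 1) (n + 1) = ρ n + 1 := by
    unfold cont
    have h6 : ρ (n + 1 + 1) = ρ (n + 1) := h'
    rw [if_pos h6, h6, h]
  rw [h1, h2, h3, h4, h5]
  omega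

theorem dimF_end (t M q : ℕ) (ρ : ℕ → ℕ) : dimF t M q ρ M = dimF t M (q + 1) ρ 0 := by
  refine Finset.sum_congr rfl fun j hj => ?_
  have h1 := Finset.mem_range.1 hj
  unfold cont
  rw [if_pos h1, if_neg (Nat.not_lt_zero j), Nat.sub_sub]

theorem dimF_cut {t M q : ℕ} {ρ : ℕ → ℕ} (hρ : Good ρ) {n : ℕ} (hq : q < t) (hn : n + 1 = M)
    (h : ρ (n + 1) = ρ n + 1) (h' : ρ (n + 1) = t - q) :
    dimF t M q ρ M = dimF t M (q + 1) (fun j => min (ρ j) (t - q - 1)) 0 := by
  refine Finset.sum_congr rfl fun j hj => ?_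
  have h1 := Finset.mem_range.1 hj
  unfold cont
  simp only
  rw [if_pos h1, if_neg (Nat.not_lt_zero j)]
  have e1 : ∀ l, l ≤ n → ρ l ≤ t - q - 1 := by
    intro l hl
    have := hρ.mono hl
    omega
  rcases lt_or_ge j n with hjn | hjn
  · rw [min_eq_left (e1 j hjn.le), min_eq_left (e1 (j + 1) (by omega)), Nat.sub_sub]
  · have hj' : j = n := by omega
    subst hj'
    rw [if_neg (by omega), if_pos (by omega)]
    omega

theorem dimF_zero {t M q : ℕ} {ρ : ℕ → ℕ} (hρ : Good ρ) (h : ρ M = 0) (n : ℕ) :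
    dimF t M q ρ n = 0 := by
  refine Finset.sum_eq_zero fun j hj => ?_
  have h1 := Finset.mem_range.1 hj
  have h2 : ρ (j + 1) ≤ ρ M := hρ.mono (by omega)
  have h3 : ρ j ≤ ρ M := hρ.mono (by omega)
  unfold cont
  rw [if_pos (by omega)]
  omega

private theorem sum_two (a b k d : ℕ) :
    ∑ j ∈ Finset.range (k + d), (if j < k then a else b) = k * a + d * b := by
  induction d with
  | zero =>
    rw [Nat.add_zero, Finset.sum_congr rfl fun j hj => if_pos (Finset.mem_range.1 hj)]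
    simp
  | succ d ih =>
    rw [← Nat.add_assoc, Finset.sum_range_succ, ih, if_neg (by omega)]
    ring

theorem dimF_rhoA {t M s : ℕ} (h : s - 1 ≤ M) :
    dimF t M 0 (rhoA s) 0 = (s - 1) * t + (M - (s - 1)) * (s - 1) := by
  obtain ⟨d, hd⟩ := Nat.exists_eq_add_of_le h
  have e : dimF t M 0 (rhoA s) 0 = ∑ j ∈ Finset.range (s - 1 + d), (if j < s - 1 then t else s - 1) := by
    unfold dimF
    rw [hd]
    refine Finset.sum_congr rfl fun j _ => ?_
    unfold cont rhoA
    by_cases hj : j < s - 1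
    · rw [if_pos hj, if_neg (by omega), if_neg (Nat.not_lt_zero j), Nat.sub_zero]
    · rw [if_neg hj, if_pos (by omega)]
      omega
  rw [e, sum_two, hd, Nat.add_sub_cancel_left]

theorem dimF_rhoB {t m s : ℕ} (hs : 0 < s) (h : s - 1 ≤ m) :
    dimF t (m + 1) 0 (rhoB s m) 0 = (s - 1) * t + (m - (s - 1)) * (s - 1) + t := by
  rw [← dimF_rhoA h]
  unfold dimF
  rw [Finset.sum_range_succ]
  congr 1
  · refine Finset.sum_congr rfl fun j hj => ?_
    have h1 := Finset.mem_range.1 hj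
    unfold cont rhoA rhoB
    rw [if_pos (show j ≤ m by omega), if_pos (show j + 1 ≤ m by omega)]
  · unfold cont rhoB
    rw [if_pos (show m ≤ m from le_rfl), if_neg (show ¬ m + 1 ≤ m by omega), if_neg (by omega),
      if_neg (Nat.not_lt_zero m), Nat.sub_zero]

end Pool.Helper49.HE
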