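import Mathlib
import Pool.Agent.Helper49.HE.Defs
import Pool.Agent.Helper49.HE.Fam1

/-!
Project HE (MP_f60bb9_ag).  Block HE-2: ideal identities (any commutative ring).
All minors are `(X.submatrix f g).det` with arbitrary index maps `f`, `g` (they vanish when `f` or `g`
is not injective).  The ideals are `Ideal.span` of sets, so inclusions are checked on generators.

* `famIdeal_cut`: a minor of size `≥ t - q` (`q < t`): `f : Fin (t - q) → Fin t` is not injective (the
  determinant is `0`) or takes a value `≤ q` (only `t - q - 1` values are `> q`); in this case a row of the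
  submatrix has all entries in `zIdeal X (q + 1) 0`, and the determinant is in this ideal (Laplace
  expansion along the row `Matrix.det_succ_row`, or `det` of the matrix over the quotient with
  a zero row).  If `ρ j ≤ t - q - 1` the minors of both sides for `j` agree.
* `famIdeal_low_full`: `ρ n = t - q`, so `min (ρ j) (ρ n - 1)` for `j ≤ n` is `ρ j` or `t - q - 1`; the minors
  of size `t - q` of the first `j ≤ n` columns are in `zIdeal X q n` (as before: `f` not injective or
  with a value `≤ q`; the columns are `< n`).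
* `mul_mem_famIdeal`: for `a` in `zIdeal X q n` or a minor for `ρ` this is clear.  Otherwise `a` is a minor
  of size `ρ n` of columns `< j ≤ n` with rows `f`, `g`.  The minor with the rows `q, f` and
  the columns `l, g` (`Fin.cons`) has size `ρ n + 1 = ρ (l + 1) + 1` and columns `< l + 1`; expansion along the
  first row is `X q l * a +` (entries `X q (g _)`, in `zIdeal X q n`) `* ...`.
-/

namespace Pool.Helper49.HE

open Pool.Helper49.DP

universe u v

variable {A : Type u} [CommRing A] {t M : ℕ}

private theorem mem_rk26 (X : Matrix (Fin t) (Fin M) A) {ρ : ℕ → ℕ} {j k : ℕ} (hj : j ≤ M)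
    (hk : k = ρ j + 1) (f : Fin k → Fin t) (g : Fin k → Fin M) (hg : ∀ l, (g l : ℕ) < j) :
    (X.submatrix f g).det ∈ rkIdeal X ρ := by
  subst hk
  exact Ideal.subset_span ⟨j, hj, f, g, hg, rfl⟩

private theorem mem_z26 (X : Matrix (Fin t) (Fin M) A) {q n : ℕ} (p : Fin t) (l : Fin M)
    (h : (p : ℕ) < q ∨ ((p : ℕ) = q ∧ (l : ℕ) < n)) : X p l ∈ zIdeal X q n :=
  Ideal.subset_span ⟨p, l, h, rfl⟩

private theorem det_mem26 {k : ℕ} (B : Matrix (Fin k) (Fin k) A) (I : Ideal A) (i : Fin k)
    (h : ∀ l, B i l ∈ I) : B.det ∈ I := by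
  rw [← Ideal.Quotient.eq_zero_iff_mem, RingHom.map_det]
  refine Matrix.det_eq_zero_of_row_eq_zero i fun l => ?_
  rw [RingHom.mapMatrix_apply, Matrix.map_apply]
  exact Ideal.Quotient.eq_zero_iff_mem.2 (h l)

/-- Minors of size at least `t - q` lie in every ideal which contains the entries of the rows
`≤ q` in the columns of the minor. -/
private theorem minor_mem26 (X : Matrix (Fin t) (Fin M) A) (I : Ideal A) {q k : ℕ} (hq : q < t)
    (hk : t ≤ k + q) (f : Fin k → Fin t) (g : Fin k → Fin M)
    (hI : ∀ (p : Fin t) (l : Fin k), (p : ℕ) ≤ q → X p (g l) ∈ I) :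
    (X.submatrix f g).det ∈ I := by
  by_cases hf : Function.Injective f
  · have hex : ∃ i, (f i : ℕ) ≤ q := by
      by_contra hcon
      push Not at hcon
      have h1 : Finset.univ.image (fun i => (f i : ℕ)) ⊆ Finset.Ioo q t := by
        intro p hp
        obtain ⟨i, -, rfl⟩ := Finset.mem_image.1 hp
        exact Finset.mem_Ioo.2 ⟨hcon i, (f i).2⟩
      have h2 := Finset.card_le_card h1
      have h3 : Function.Injective fun i => (f i : ℕ) := fun i i' h => hf (Fin.ext h)
      rw [Finset.card_image_of_injective _ h3, Finset.card_univ, Fintype.card_fin,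
        Nat.card_Ioo] at h2
      omega
    obtain ⟨i, hi⟩ := hex
    exact det_mem26 _ I i fun l => hI (f i) l hi
  · have h1 : ∃ i i', f i = f i' ∧ i ≠ i' := by
      simpa only [Function.Injective, not_forall, exists_prop] using hf
    obtain ⟨i, i', h2, h3⟩ := h1
    have h4 : (X.submatrix f g).det = 0 := by
      refine Matrix.det_zero_of_row_eq h3 ?_
      funext l
      rw [Matrix.submatrix_apply, Matrix.submatrix_apply, h2]
    rw [h4]
    exact I.zero_mem

theorem famIdeal_cut (X : Matrix (Fin t) (Fin M) A) (ρ : ℕ → ℕ) {q : ℕ} (hq : q < t) :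
    famIdeal X (q + 1) ρ 0 = famIdeal X (q + 1) (fun j => min (ρ j) (t - q - 1)) 0 := by
  apply le_antisymm
  · exact sup_le_sup le_rfl (rkIdeal_anti X fun j _ => min_le_left _ _)
  · refine sup_le le_sup_left (Ideal.span_le.2 ?_)
    rintro _ ⟨j, hj, f, g, hg, rfl⟩
    by_cases h : ρ j ≤ t - q - 1
    · exact Ideal.mem_sup_right (mem_rk26 X hj (by simp only [min_eq_left h]) f g hg)
    · refine Ideal.mem_sup_left (minor_mem26 X _ hq ?_ f g fun p l hp => ?_)
      · have h1 : min (ρ j) (t - q - 1) = t - q - 1 := min_eq_right (by omega)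
        simp only [h1]
        omega
      · exact mem_z26 X p (g l) (Or.inl (by omega))

theorem famIdeal_low_full (X : Matrix (Fin t) (Fin M) A) {ρ : ℕ → ℕ} (hρ : Good ρ) {q n : ℕ}
    (hq : q < t) (hn : n ≤ M) (h : ρ n = t - q) :
    famIdeal X q ρ n = famIdeal X q (low ρ n) n := by
  refine le_antisymm (famIdeal_low_le X ρ q n) ?_
  refine sup_le le_sup_left (Ideal.span_le.2 ?_)
  rintro _ ⟨j, hj, f, g, hg, rfl⟩
  by_cases hjn : j ≤ n
  · have h1 : low ρ n j = min (ρ j) (ρ n - 1) := if_pos hjn
    by_cases h2 : ρ j ≤ ρ n - 1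
    · exact Ideal.mem_sup_right (mem_rk26 X hj (by rw [h1, min_eq_left h2]) f g hg)
    · refine Ideal.mem_sup_left (minor_mem26 X _ hq ?_ f g fun p l hp => ?_)
      · rw [h1, min_eq_right (by omega), h]
        omega
      · have h3 := hg l
        exact mem_z26 X p (g l) (by omega)
  · have h1 : low ρ n j = ρ j := if_neg hjn
    exact Ideal.mem_sup_right (mem_rk26 X hj (by rw [h1]) f g hg)

theorem mul_mem_famIdeal (X : Matrix (Fin t) (Fin M) A) {ρ : ℕ → ℕ} {q n l : ℕ} (hq : q < t)
    (hnl : n ≤ l) (hl : l < M) (h0 : 0 < ρ n) (h : ρ (l + 1) = ρ n) {a : A}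
    (ha : a ∈ famIdeal X q (low ρ n) n) : X ⟨q, hq⟩ ⟨l, hl⟩ * a ∈ famIdeal X q ρ n := by
  have key : famIdeal X q (low ρ n) n ≤
      Submodule.comap (LinearMap.mulLeft A (X ⟨q, hq⟩ ⟨l, hl⟩)) (famIdeal X q ρ n) := by
    refine sup_le (fun z hz => ?_) (Ideal.span_le.2 ?_)
    · exact Ideal.mul_mem_left _ _ (Ideal.mem_sup_left hz)
    · rintro _ ⟨j, hj, f, g, hg, rfl⟩
      change X ⟨q, hq⟩ ⟨l, hl⟩ * (X.submatrix f g).det ∈ famIdeal X q ρ n
      by_cases hjn : j ≤ n
      · have h1 : low ρ n j = min (ρ j) (ρ n - 1) := if_pos hjn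
        by_cases h2 : ρ j ≤ ρ n - 1
        · exact Ideal.mul_mem_left _ _ (Ideal.mem_sup_right
            (mem_rk26 X hj (by rw [h1, min_eq_left h2]) f g hg))
        · have h3 : low ρ n j + 1 = ρ (l + 1) := by
            rw [h1, min_eq_right (by omega), h]
            omega
          have h4 : (X.submatrix (Fin.cons ⟨q, hq⟩ f : Fin (low ρ n j + 1 + 1) → Fin t)
              (Fin.cons ⟨l, hl⟩ g : Fin (low ρ n j + 1 + 1) → Fin M)).det ∈ famIdeal X q ρ n := by
            refine Ideal.mem_sup_right (mem_rk26 X (j := l + 1) hl (by rw [h3]) _ _ ?_)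
            intro c
            refine Fin.cases ?_ (fun c => ?_) c
            · rw [Fin.cons_zero]
              exact Nat.lt_succ_self l
            · rw [Fin.cons_succ]
              have h5 := hg c
              omega
          rw [Matrix.det_succ_row_zero, Fin.sum_univ_succ] at h4
          have h6 : ∑ c : Fin (low ρ n j + 1), (-1) ^ ((c.succ : Fin (low ρ n j + 1 + 1)) : ℕ) *
              (X.submatrix (Fin.cons ⟨q, hq⟩ f : Fin (low ρ n j + 1 + 1) → Fin t)
                (Fin.cons ⟨l, hl⟩ g : Fin (low ρ n j + 1 + 1) → Fin M)) 0 c.succ *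
              ((X.submatrix (Fin.cons ⟨q, hq⟩ f : Fin (low ρ n j + 1 + 1) → Fin t)
                (Fin.cons ⟨l, hl⟩ g : Fin (low ρ n j + 1 + 1) → Fin M)).submatrix Fin.succ
                  c.succ.succAbove).det ∈ famIdeal X q ρ n := by
            refine Ideal.sum_mem _ fun c _ => Ideal.mul_mem_right _ _ (Ideal.mul_mem_left _ _ ?_)
            rw [Matrix.submatrix_apply, Fin.cons_zero, Fin.cons_succ]
            have h7 := hg c
            exact Ideal.mem_sup_left (mem_z26 X _ _ (Or.inr ⟨rfl, by omega⟩))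
          have h8 := (Ideal.add_mem_iff_left _ h6).1 h4
          rw [Fin.val_zero, pow_zero, one_mul, Matrix.submatrix_apply, Fin.cons_zero,
            Fin.cons_zero, Matrix.submatrix_submatrix] at h8
          exact h8
      · have h1 : low ρ n j = ρ j := if_neg hjn
        exact Ideal.mul_mem_left _ _ (Ideal.mem_sup_right (mem_rk26 X hj (by rw [h1]) f g hg))
  exact key ha

end Pool.Helper49.HE
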