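import Mathlib
import Pool.Agent.Helper49.HE.Defs

/-!
Project HE (MP_f60bb9_ag).  Block HE-4: linear algebra over a field `L`.

* `finrank_cols_le`: if all minors of size `a + 1` of the
   first `j` columns of `x` vanish then the span of the first `j` columns has dimension `≤ a`.
   Otherwise choose `a + 1` linearly independent columns among the first `j`
   (`exists_linearIndependent` / `exists_fun_fin_finrank_span_eq` style), the `t × (a + 1)` matrix of these
   columns has rank `a + 1` (`Matrix.rank_eq_finrank_span_cols`), so its transposed matrix too
   (`Matrix.rank_transpose`), so it has `a + 1` linearly independent rows, and the square submatrix is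
   invertible (`Matrix.linearIndependent_rows_iff_isUnit`), with nonzero determinant.
* `exists_flag`: vectors `y 0, …, y (M - 1)` of a vector space `E`, `d j = finrank (span (y l, l < j)) ≤ ρ j`
   for `j ≤ M`.  There is `u : ℕ → E`, all `u l` in the span of all `y`, with `y j ∈ span (u l, l < ρ (j + 1))`
   for `j < M`.  Proof: by induction on `M'` ≤ `M` there is `u` with `span (y l, l < j) = span (u l, l < d j)`
   for all `j ≤ M'`: if `y M'` is in the span of the previous ones nothing changes
   (`d (M' + 1) = d M'`), otherwise `d (M' + 1) = d M' + 1` and put `u (d M') := y M'`.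
   The members `u l` can be taken in the span of the `y` (put `u l = 0` for `l ≥ d M`).
-/

namespace Pool.Helper49.HE

universe u v

private theorem extract4 {L : Type u} [Field L] {V : Type v} [AddCommGroup V] [Module L V]
    [Module.Finite L V] {ι : Type*} (w : ι → V) (n : ℕ)
    (hn : n ≤ Module.finrank L (Submodule.span L (Set.range w))) :
    ∃ f : Fin n → ι, LinearIndependent L (fun i => w (f i)) := by
  classical
  obtain ⟨b, hb, hspan, hli⟩ := exists_linearIndependent L (Set.range w)
  haveI : Finite b := hli.finite
  haveI : Fintype b := Fintype.ofFinite b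
  have hcard : Module.finrank L (Submodule.span L (Set.range w)) = Fintype.card b := by
    rw [← hspan, finrank_span_set_eq_card hli, Set.toFinset_card]
  rw [hcard] at hn
  have hemb : Nonempty (Fin n ↪ b) := by
    rw [Function.Embedding.nonempty_iff_card_le, Fintype.card_fin]
    exact hn
  obtain ⟨e⟩ := hemb
  have hch : ∀ i, ∃ k, w k = (e i : V) := fun i => hb (e i).2
  choose f hf using hch
  refine ⟨f, ?_⟩
  have h1 : (fun i => w (f i)) = (fun t : b => (t : V)) ∘ e := by
    funext i
    exact hf i
  rw [h1]
  exact hli.comp e e.injective

theorem finrank_cols_le {L : Type u} [Field L] {t M : ℕ} (x : Matrix (Fin t) (Fin M) L)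
    {a j : ℕ} (h : ∀ (f : Fin (a + 1) → Fin t) (g : Fin (a + 1) → Fin M),
      (∀ l, (g l : ℕ) < j) → (x.submatrix f g).det = 0) :
    Module.finrank L (Submodule.span L {w : Fin t → L | ∃ l : Fin M, (l : ℕ) < j ∧
      w = fun p => x p l}) ≤ a := by
  classical
  by_contra hcon
  push Not at hcon
  let w : {l : Fin M // (l : ℕ) < j} → (Fin t → L) := fun l p => x p l
  have hset : {w : Fin t → L | ∃ l : Fin M, (l : ℕ) < j ∧ w = fun p => x p l} = Set.range w := by
    ext v
    constructor
    · rintro ⟨l, hl, rfl⟩
      exact ⟨⟨l, hl⟩, rfl⟩
    · rintro ⟨l, rfl⟩
      exact ⟨l, l.2, rfl⟩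
  rw [hset] at hcon
  obtain ⟨g, hg⟩ := extract4 w (a + 1) hcon
  -- the matrix of the chosen columns
  set A : Matrix (Fin t) (Fin (a + 1)) L := x.submatrix id (fun i => (g i : Fin M)) with hA
  have hrank : A.transpose.rank = a + 1 := by
    have h1 : LinearIndependent L A.transpose.row := hg
    have := h1.rank_matrix
    rw [this, Fintype.card_fin]
  have hrow : a + 1 ≤ Module.finrank L (Submodule.span L (Set.range A.row)) := by
    rw [← Matrix.rank_eq_finrank_span_row, ← Matrix.rank_transpose, hrank]
  obtain ⟨f, hf⟩ := extract4 A.row (a + 1) hrow
  have hunit : IsUnit (x.submatrix f (fun i => (g i : Fin M))) := by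
    rw [← Matrix.linearIndependent_rows_iff_isUnit]
    exact hf
  rw [Matrix.isUnit_iff_isUnit_det] at hunit
  exact hunit.ne_zero (h f (fun i => (g i : Fin M)) (fun l => (g l).2))

theorem exists_flag {L : Type u} [Field L] {E : Type v} [AddCommGroup E] [Module L E]
    [Module.Finite L E] {M : ℕ} (y : ℕ → E) (ρ : ℕ → ℕ)
    (h : ∀ j, j ≤ M → Module.finrank L (Submodule.span L (y '' Set.Iio j)) ≤ ρ j) :
    ∃ u : ℕ → E, (∀ l, u l ∈ Submodule.span L (y '' Set.Iio M)) ∧
      ∀ j, j < M → y j ∈ Submodule.span L (u '' Set.Iio (ρ (j + 1))) := by
  classical
  have key : ∀ N : ℕ, ∃ u : ℕ → E, (∀ l, u l ∈ Submodule.span L (y '' Set.Iio N)) ∧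
      ∀ j, j ≤ N → Submodule.span L (y '' Set.Iio j) = Submodule.span L
        (u '' Set.Iio (Module.finrank L (Submodule.span L (y '' Set.Iio j)))) := by
    intro N
    induction N with
    | zero =>
      refine ⟨fun _ => 0, fun l => Submodule.zero_mem _, ?_⟩
      intro j hj
      have hj0 : j = 0 := Nat.le_zero.1 hj
      subst hj0
      have h1 : Set.Iio (0 : ℕ) = ∅ := by
        ext k
        simp
      rw [h1, Set.image_empty, Submodule.span_empty, finrank_bot, h1, Set.image_empty,
        Submodule.span_empty]
    | succ N ih =>
      obtain ⟨u, hu, huj⟩ := ih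
      have hins : y '' Set.Iio (N + 1) = insert (y N) (y '' Set.Iio N) := by
        have h1 : Set.Iio (N + 1) = insert N (Set.Iio N) := by
          ext k
          simp only [Set.mem_Iio, Set.mem_insert_iff]
          omega
        rw [h1, Set.image_insert_eq]
      by_cases hy : y N ∈ Submodule.span L (y '' Set.Iio N)
      · have hsp : Submodule.span L (y '' Set.Iio (N + 1)) = Submodule.span L (y '' Set.Iio N) := by
          rw [hins, Submodule.span_insert_eq_span hy]
        refine ⟨u, ?_, ?_⟩
        · intro l
          rw [hsp]
          exact hu l
        · intro j hj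
          rcases Nat.lt_or_ge N j with h1 | h1
          · have h2 : j = N + 1 := by omega
            subst h2
            rw [hsp]
            exact huj N le_rfl
          · exact huj j h1
      · set D := Module.finrank L (Submodule.span L (y '' Set.Iio N)) with hD
        have hfr : Module.finrank L (Submodule.span L (y '' Set.Iio (N + 1))) = D + 1 := by
          have h1 := Submodule.finrank_sup_add_finrank_inf_eq (Submodule.span L (y '' Set.Iio N))
            (Submodule.span L {y N})
          have hy0 : y N ≠ 0 := by
            intro h0
            apply hy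
            rw [h0]
            exact Submodule.zero_mem _
          have h2 : Submodule.span L (y '' Set.Iio N) ⊓ Submodule.span L {y N} = ⊥ := by
            rw [eq_bot_iff]
            rintro v ⟨hv1, hv2⟩
            obtain ⟨c, rfl⟩ := Submodule.mem_span_singleton.1 hv2
            by_cases hc : c = 0
            · rw [hc, zero_smul]
              exact Submodule.zero_mem _
            · exfalso
              apply hy
              have := Submodule.smul_mem _ c⁻¹ hv1
              rwa [smul_smul, inv_mul_cancel₀ hc, one_smul] at this
          rw [h2, finrank_bot, finrank_span_singleton hy0, add_zero] at h1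
          rw [hins, Submodule.span_insert, sup_comm, h1]
        let u' : ℕ → E := fun l => if l = D then y N else u l
        have hu'lt : ∀ k, k ≤ D → u' '' Set.Iio k = u '' Set.Iio k := by
          intro k hk
          apply Set.image_congr
          intro l hl
          rw [Set.mem_Iio] at hl
          have : l ≠ D := by omega
          simp only [u', if_neg this]
        have hmono : Submodule.span L (y '' Set.Iio N) ≤ Submodule.span L (y '' Set.Iio (N + 1)) :=
          Submodule.span_mono (Set.image_mono (Set.Iio_subset_Iio (Nat.le_succ N)))
        refine ⟨u', ?_, ?_⟩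
        · intro l
          by_cases hl : l = D
          · simp only [u', if_pos hl]
            apply Submodule.subset_span
            exact ⟨N, by simp, rfl⟩
          · simp only [u', if_neg hl]
            exact hmono (hu l)
        · intro j hj
          rcases Nat.lt_or_ge N j with h1 | h1
          · have h2 : j = N + 1 := by omega
            subst h2
            rw [hfr]
            have h3 : Set.Iio (D + 1) = insert D (Set.Iio D) := by
              ext k
              simp only [Set.mem_Iio, Set.mem_insert_iff]
              omega
            have h4 : u' D = y N := by simp only [u', if_true]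
            rw [h3, Set.image_insert_eq, h4, hu'lt D le_rfl, hins, Submodule.span_insert,
              Submodule.span_insert, ← huj N le_rfl]
          · have h2 : Module.finrank L (Submodule.span L (y '' Set.Iio j)) ≤ D :=
              Submodule.finrank_mono (Submodule.span_mono
                (Set.image_mono (Set.Iio_subset_Iio h1)))
            rw [hu'lt _ h2]
            exact huj j h1
  obtain ⟨u, hu, huj⟩ := key M
  refine ⟨u, hu, ?_⟩
  intro j hj
  have h1 : y j ∈ Submodule.span L (y '' Set.Iio (j + 1)) :=
    Submodule.subset_span ⟨j, by simp, rfl⟩
  rw [huj (j + 1) hj] at h1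
  exact Submodule.span_mono (Set.image_mono (Set.Iio_subset_Iio (h (j + 1) hj))) h1

end Pool.Helper49.HE
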