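import Mathlib
import Pool.Agent.Helper49.HE.Defs
import Pool.Agent.Helper49.HE.Lin1

/-!
Project HE (MP_f60bb9_ag).  Block HE-5: linear algebra over a field `L`; (2) is `exists_flag`.

* `exists_factor`: the matrix `x` over `L` with
   - `x p l = 0` for `p < q`, and for `p = q`, `l < n`;
   - the minors of size `ρ j + 1` of the first `j` columns vanish;
   - `n < M`, `ρ (n + 1) = ρ n + 1`, `ρ` good.
   Then `x p j = ∑ l ∈ range (ρ (j + 1)), u p l * v l j` with `u p l = 0` for `p < q` and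
   `u q l = 0` for `l < ρ n`.
   Case 1: `x q j = 0` for all `j`.  Apply (2) to the columns: `u l` in their span has coordinates
   `p ≤ q` zero.
   Case 2: `j₀` the least `j` with `x q j ≠ 0`; `j₀ ≥ n`.  Put `e = x _ j₀`,
   `x' j = x j - (x q j / x q j₀) • e`: all `x' j` have the coordinates `p ≤ q` zero, `x' j = x j` for `j < j₀`,
   `x' j₀ = 0`.  Let `r = ρ (j₀ + 1) - 1 ≥ ρ n` (since `ρ (j₀ + 1) ≥ ρ (n + 1) = ρ n + 1`).  Bounds
   `ρ' j = min (ρ j) r` for `j ≤ j₀`, and `ρ' j = ρ j - 1` for `j > j₀`: for `j > j₀` the span of the first `j`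
   columns of `x` is the direct sum of that of `x'` and of `L e` (coordinate `q`), so the one of `x'`
   has dimension `≤ ρ j - 1`; for `j ≤ j₀` it is contained in the one for `j₀ + 1`.
   (2) gives `u'`; put `u l = u' l` for `l < r`, `u r = e`, `u l = u' (l - 1)` for `l > r`.  For `j < j₀`:
   `x j ∈ span (u' l, l < min (ρ (j+1)) r)`; for `j > j₀`: `x j ∈ L e + span (u' l, l < ρ (j + 1) - 1)` and
   `r < ρ (j + 1)`; for `j = j₀`: `x j₀ = e = u r`, `r < ρ (j₀ + 1)`.  `u l` for `l < ρ n ≤ r` has the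
   coordinates `p ≤ q` zero; `e` and the `u' l` have the coordinates `p < q` zero.
   (`y ∈ span (u l, l < N)` gives coefficients: `Submodule.mem_span_image_iff_exists_fun` or
   `mem_span_range_iff_exists_fun` with `Fin N`.)
-/

namespace Pool.Helper49.HE

universe u v

/-- The vectors whose coordinates up to `q` vanish. -/
private def Wq (L : Type u) [Field L] (t q : ℕ) : Submodule L (Fin t → L) where
  carrier := {w | ∀ p : Fin t, (p : ℕ) ≤ q → w p = 0}
  add_mem' := fun ha hb p hp => by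
    rw [Pi.add_apply, ha p hp, hb p hp, add_zero]
  zero_mem' := fun _ _ => rfl
  smul_mem' := fun c w hw p hp => by
    rw [Pi.smul_apply, hw p hp, smul_zero]

private theorem mem_Wq {L : Type u} [Field L] {t q : ℕ} {w : Fin t → L} :
    w ∈ Wq L t q ↔ ∀ p : Fin t, (p : ℕ) ≤ q → w p = 0 := Iff.rfl

private theorem flag_zero {L : Type u} [Field L] {t M q n : ℕ} (y : ℕ → Fin t → L)
    {ρ : ℕ → ℕ} (hρ : Good ρ) (hq : q < t) (hjump : ρ (n + 1) = ρ n + 1)
    (hz : ∀ l, l < M → ∀ p : Fin t, (p : ℕ) < q → y l p = 0)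
    (hzq : ∀ l, l < n → y l ⟨q, hq⟩ = 0)
    (h : ∀ j, j ≤ M → Module.finrank L (Submodule.span L (y '' Set.Iio j)) ≤ ρ j) :
    ∃ u : ℕ → Fin t → L,
      (∀ (l : ℕ) (p : Fin t), ((p : ℕ) < q ∨ ((p : ℕ) = q ∧ l < ρ n)) → u l p = 0) ∧
      ∀ j, j < M → y j ∈ Submodule.span L (u '' Set.Iio (ρ (j + 1))) := by
  classical
  have hmono : Monotone ρ := monotone_nat_of_le_succ fun j => (hρ.2 j).1
  by_cases hall : ∀ l, l < M → y l ⟨q, hq⟩ = 0
  · obtain ⟨u, hu1, hu2⟩ := exists_flag y ρ h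
    have hW : Submodule.span L (y '' Set.Iio M) ≤ Wq L t q := by
      rw [Submodule.span_le]
      rintro _ ⟨l, hl, rfl⟩ p hp
      rcases Nat.lt_or_eq_of_le hp with hp | hp
      · exact hz l hl p hp
      · have : p = ⟨q, hq⟩ := Fin.ext hp
        rw [this]
        exact hall l hl
    refine ⟨u, fun l p hp => hW (hu1 l) p ?_, hu2⟩
    rcases hp with hp | hp
    · exact hp.le
    · exact hp.1.le
  push Not at hall
  have hfind := Nat.find_spec hall
  have hmin : ∀ l, l < Nat.find hall → l < M → y l ⟨q, hq⟩ = 0 := by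
    intro l hl hlM
    by_contra hc
    exact Nat.find_min hall hl ⟨hlM, hc⟩
  generalize Nat.find hall = j₀ at hfind hmin
  obtain ⟨hj₀M, he⟩ := hfind
  have hnj : n ≤ j₀ := by
    by_contra hc
    exact he (hzq j₀ (by omega))
  have hρj : ρ n + 1 ≤ ρ (j₀ + 1) := by
    rw [← hjump]
    exact hmono (by omega)
  obtain ⟨r, hr⟩ : ∃ r, ρ (j₀ + 1) = r + 1 := ⟨ρ (j₀ + 1) - 1, by omega⟩
  obtain ⟨y', hy'⟩ : ∃ y' : ℕ → Fin t → L,
      y' = fun l => y l - (y l ⟨q, hq⟩ / y j₀ ⟨q, hq⟩) • y j₀ := ⟨_, rfl⟩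
  have hy'W : ∀ l, l < M → y' l ∈ Wq L t q := by
    intro l hl p hp
    rw [hy']
    rcases Nat.lt_or_eq_of_le hp with hp | hp
    · simp [hz l hl p hp, hz j₀ hj₀M p hp]
    · have : p = ⟨q, hq⟩ := Fin.ext hp
      rw [this]
      simp [div_mul_cancel₀ _ he]
  have hyy' : ∀ l, y l = y' l + (y l ⟨q, hq⟩ / y j₀ ⟨q, hq⟩) • y j₀ := by
    intro l
    rw [hy']
    simp
  have hy'lt : ∀ l, l < j₀ → y' l = y l := by
    intro l hl
    rw [hy']
    simp [hmin l hl (by omega)]
  have hrank : ∀ j J, j ≤ J → j₀ < J → J ≤ M →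
      Module.finrank L (Submodule.span L (y' '' Set.Iio j)) < ρ J := by
    intro j J hjJ hJ hJM
    refine lt_of_lt_of_le (Submodule.finrank_lt_finrank_of_lt ?_) (h J hJM)
    rw [SetLike.lt_iff_le_and_exists]
    refine ⟨?_, y j₀, Submodule.subset_span ⟨j₀, hJ, rfl⟩, ?_⟩
    · rw [Submodule.span_le]
      rintro _ ⟨l, hl, rfl⟩
      rw [hy']
      refine Submodule.sub_mem _ (Submodule.subset_span ⟨l, lt_of_lt_of_le hl hjJ, rfl⟩)
        (Submodule.smul_mem _ _ (Submodule.subset_span ⟨j₀, hJ, rfl⟩))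
    · intro hc
      have hW : Submodule.span L (y' '' Set.Iio j) ≤ Wq L t q := by
        rw [Submodule.span_le]
        rintro _ ⟨l, hl, rfl⟩
        exact hy'W l (lt_of_lt_of_le hl (hjJ.trans hJM))
      exact he (hW hc ⟨q, hq⟩ le_rfl)
  obtain ⟨u', hu1, hu2⟩ := exists_flag (M := M) y'
    (fun j => if j ≤ j₀ then min (ρ j) r else ρ j - 1) (by
      intro j hj
      split_ifs with hjj
      · refine le_min ?_ ?_
        · have : y' '' Set.Iio j = y '' Set.Iio j := by
            refine Set.image_congr fun l hl => hy'lt l (lt_of_lt_of_le hl hjj)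
          rw [this]
          exact h j hj
        · have := hrank j (j₀ + 1) (by omega) (by omega) (by omega)
          omega
      · have := hrank j j le_rfl (by omega) hj
        omega)
  have hu'W : ∀ l, u' l ∈ Wq L t q := by
    intro l
    refine (Submodule.span_le.2 ?_) (hu1 l)
    rintro _ ⟨l, hl, rfl⟩
    exact hy'W l hl
  refine ⟨fun l => if l < r then u' l else if l = r then y j₀ else u' (l - 1), ?_, ?_⟩
  · intro l p hp
    rcases hp with hp | hp
    · dsimp only
      split_ifs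
      · exact hu'W l p hp.le
      · exact hz j₀ hj₀M p hp
      · exact hu'W (l - 1) p hp.le
    · dsimp only
      rw [if_pos (by omega)]
      exact hu'W l p hp.1.le
  · intro j hj
    have hemem : j₀ ≤ j → y j₀ ∈ Submodule.span L
        ((fun l => if l < r then u' l else if l = r then y j₀ else u' (l - 1)) ''
          Set.Iio (ρ (j + 1))) := by
      intro hjj
      refine Submodule.subset_span ⟨r, ?_, by simp⟩
      have := hmono (show j₀ + 1 ≤ j + 1 by omega)
      exact Set.mem_Iio.2 (by omega)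
    rcases lt_trichotomy j j₀ with hlt | heq | hgt
    · rw [← hy'lt j hlt]
      refine (Submodule.span_le.2 ?_) (hu2 j hj)
      rintro _ ⟨l, hl, rfl⟩
      rw [if_pos (show j + 1 ≤ j₀ by omega), Set.mem_Iio, lt_min_iff] at hl
      refine Submodule.subset_span ⟨l, Set.mem_Iio.2 hl.1, ?_⟩
      dsimp only
      rw [if_pos hl.2]
    · rw [heq]
      rw [heq] at hemem
      exact hemem le_rfl
    · rw [hyy' j]
      refine Submodule.add_mem _ ?_ (Submodule.smul_mem _ _ (hemem hgt.le))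
      refine (Submodule.span_le.2 ?_) (hu2 j hj)
      rintro _ ⟨l, hl, rfl⟩
      rw [if_neg (show ¬ j + 1 ≤ j₀ by omega), Set.mem_Iio] at hl
      by_cases hlr : l < r
      · refine Submodule.subset_span ⟨l, Set.mem_Iio.2 (by omega), ?_⟩
        dsimp only
        rw [if_pos hlr]
      · refine Submodule.subset_span ⟨l + 1, Set.mem_Iio.2 (by omega), ?_⟩
        dsimp only
        rw [if_neg (by omega), if_neg (by omega), Nat.add_sub_cancel]

theorem exists_factor {L : Type u} [Field L] {t M : ℕ} (x : Matrix (Fin t) (Fin M) L)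
    {ρ : ℕ → ℕ} (hρ : Good ρ) {q n : ℕ} (hq : q < t) (hn : n < M) (hjump : ρ (n + 1) = ρ n + 1)
    (hz : ∀ (p : Fin t) (l : Fin M), ((p : ℕ) < q ∨ ((p : ℕ) = q ∧ (l : ℕ) < n)) → x p l = 0)
    (hm : ∀ j, j ≤ M → ∀ (f : Fin (ρ j + 1) → Fin t) (g : Fin (ρ j + 1) → Fin M),
      (∀ l, (g l : ℕ) < j) → (x.submatrix f g).det = 0) :
    ∃ (u : Fin t → ℕ → L) (v : ℕ → Fin M → L),
      (∀ (p : Fin t) (l : ℕ), ((p : ℕ) < q ∨ ((p : ℕ) = q ∧ l < ρ n)) → u p l = 0) ∧
      ∀ p j, x p j = ∑ l ∈ Finset.range (ρ (j + 1)), u p l * v l j := by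
  classical
  obtain ⟨y, hy⟩ : ∃ y : ℕ → Fin t → L,
      y = fun j p => if h : j < M then x p ⟨j, h⟩ else 0 := ⟨_, rfl⟩
  have hyx : ∀ (j : Fin M) p, y j p = x p j := by
    intro j p
    rw [hy]
    simp
  obtain ⟨u, hu1, hu2⟩ := flag_zero (M := M) (n := n) y hρ hq hjump
    (fun l hl p hp => by
      rw [hyx ⟨l, hl⟩ p]
      exact hz p ⟨l, hl⟩ (Or.inl hp))
    (fun l hl => by
      rw [hyx ⟨l, hl.trans hn⟩ ⟨q, hq⟩]
      exact hz ⟨q, hq⟩ ⟨l, hl.trans hn⟩ (Or.inr ⟨rfl, hl⟩))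
    (fun j hj => by
      have hset : y '' Set.Iio j = {w : Fin t → L | ∃ l : Fin M, (l : ℕ) < j ∧
          w = fun p => x p l} := by
        ext w
        constructor
        · rintro ⟨l, hl, rfl⟩
          exact ⟨⟨l, lt_of_lt_of_le hl hj⟩, hl,
            funext fun p => hyx ⟨l, lt_of_lt_of_le hl hj⟩ p⟩
        · rintro ⟨l, hl, rfl⟩
          exact ⟨l, hl, funext fun p => hyx l p⟩
      rw [hset]
      exact finrank_cols_le x (a := ρ j) (j := j) (hm j hj))
  have hc : ∀ j : Fin M, ∃ f : ℕ → L, ∑ l ∈ Finset.range (ρ (j + 1)), f l • u l = y j := by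
    intro j
    have := hu2 j j.2
    rw [← Finset.coe_range, Submodule.mem_span_image_finset_iff_exists_fun'] at this
    exact this
  choose f hf using hc
  refine ⟨fun p l => u l p, fun l j => f j l, fun p l hp => hu1 l p hp, fun p j => ?_⟩
  rw [← hyx j p, ← hf j, Finset.sum_apply]
  refine Finset.sum_congr rfl fun l _ => ?_
  rw [Pi.smul_apply, smul_eq_mul, mul_comm]

end Pool.Helper49.HE
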