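import Mathlib
import Pool.Agent.Helper49.HE.Defs

/-!
Project HE (MP_f60bb9_ag).  Block HE-6: the parametrisation.

`S = MvPolynomial (Fin t × Fin M) k`, `W = MvPolynomial ((Fin t × ℕ) ⊕ (ℕ × Fin M)) k`,
`U p l = 0` if `p < q` or (`p = q` and `l < ρ n`), otherwise the variable `X (inl (p, l))`;
`ψ : S → W`, `X (p, j) ↦ ∑ l ∈ range (ρ (j + 1)), U p l * X (inr (l, j))`.

* `famIdeal_le_ker`: the entries with `p < q` go to `0`; those with `p = q`, `j < n` too, since
  `ρ (j + 1) ≤ ρ n` (`Good` gives monotone).  The matrix of the images restricted to columns `< j` is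
  the product of the `t × ρ j` matrix `U` and of `V`, `V l j' = X (inr (l, j'))` for `l < ρ (j' + 1)`,
  otherwise `0` (`ρ (j' + 1) ≤ ρ j`); so minors of size `ρ j + 1` vanish (`det (B * C) = 0` for `B` of size
  `(a + 1) × a`: add a zero column to `B` and a zero row to `C`).
* `psi_ne_zero`: `∑ l < ρ n + 1, U q l * V l n = X (inl (q, ρ n)) * X (inr (ρ n, n))`.
-/

namespace Pool.Helper49.HE

open MvPolynomial

universe u

/-- The matrix `U`. -/
noncomputable def umat (k : Type u) [Field k] (t M q : ℕ) (ρ : ℕ → ℕ) (n : ℕ) (p : Fin t)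
    (l : ℕ) : MvPolynomial ((Fin t × ℕ) ⊕ (ℕ × Fin M)) k :=
  open Classical in
  if (p : ℕ) < q ∨ ((p : ℕ) = q ∧ l < ρ n) then 0 else X (Sum.inl (p, l))

/-- The parametrisation. -/
noncomputable def psi (k : Type u) [Field k] (t M q : ℕ) (ρ : ℕ → ℕ) (n : ℕ) :
    MvPolynomial (Fin t × Fin M) k →ₐ[k] MvPolynomial ((Fin t × ℕ) ⊕ (ℕ × Fin M)) k :=
  aeval fun pj => ∑ l ∈ Finset.range (ρ (pj.2 + 1)), umat k t M q ρ n pj.1 l *
    X (Sum.inr (l, pj.2))

private theorem good_mono34 {ρ : ℕ → ℕ} (hρ : Good ρ) : Monotone ρ :=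
  monotone_nat_of_le_succ fun j => (hρ.2 j).1

private theorem det_zero34 {A : Type*} [CommRing A] {a : ℕ} (B : Fin (a + 1) → ℕ → A)
    (C : ℕ → Fin (a + 1) → A) (D : Matrix (Fin (a + 1)) (Fin (a + 1)) A)
    (h : ∀ i j, D i j = ∑ l ∈ Finset.range a, B i l * C l j) : D.det = 0 := by
  let B' : Matrix (Fin (a + 1)) (Fin (a + 1)) A :=
    Matrix.of fun i l => if (l : ℕ) = a then 0 else B i l
  let C' : Matrix (Fin (a + 1)) (Fin (a + 1)) A := Matrix.of fun l j => C l j
  have hD : D = B' * C' := by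
    ext i j
    rw [Matrix.mul_apply, h]
    have h1 : ∀ l : Fin (a + 1), B' i l * C' l j =
        (fun l : ℕ => (if l = a then 0 else B i l) * C l j) l := fun l => rfl
    rw [Finset.sum_congr rfl fun l _ => h1 l,
      Fin.sum_univ_eq_sum_range (fun l : ℕ => (if l = a then 0 else B i l) * C l j) (a + 1),
      Finset.sum_range_succ]
    simp only [if_true, zero_mul, add_zero]
    refine Finset.sum_congr rfl fun l hl => ?_
    rw [if_neg (Finset.mem_range.1 hl).ne]
  have hB : B'.det = 0 := by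
    refine Matrix.det_eq_zero_of_column_eq_zero (Fin.last a) fun i => ?_
    simp [B']
  rw [hD, Matrix.det_mul, hB, zero_mul]

theorem famIdeal_le_ker (k : Type u) [Field k] {t M : ℕ} {ρ : ℕ → ℕ} (hρ : Good ρ) (q n : ℕ) :
    famIdeal (fun (i : Fin t) (j : Fin M) => (X (i, j) : MvPolynomial (Fin t × Fin M) k))
      q ρ n ≤ RingHom.ker (psi k t M q ρ n) := by
  classical
  have hm := good_mono34 hρ
  refine sup_le ?_ ?_
  · refine Ideal.span_le.2 ?_
    rintro _ ⟨p, l, hpl, rfl⟩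
    rw [SetLike.mem_coe, RingHom.mem_ker]
    show psi k t M q ρ n (X (p, l)) = 0
    rw [psi, aeval_X]
    refine Finset.sum_eq_zero fun i hi => ?_
    have h0 : umat k t M q ρ n p i = 0 := by
      rw [umat, if_pos]
      rcases hpl with h | ⟨h, h'⟩
      · exact Or.inl h
      · refine Or.inr ⟨h, ?_⟩
        have h1 : i < ρ (l + 1) := Finset.mem_range.1 hi
        exact h1.trans_le (hm h')
    show umat k t M q ρ n p i * _ = 0
    rw [h0, zero_mul]
  · refine Ideal.span_le.2 ?_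
    rintro _ ⟨j, hj, f, g, hg, rfl⟩
    rw [SetLike.mem_coe, RingHom.mem_ker]
    show psi k t M q ρ n _ = 0
    rw [AlgHom.map_det]
    refine det_zero34 (fun i l => umat k t M q ρ n (f i) l)
      (fun l b => if l < ρ (g b + 1) then X (Sum.inr (l, g b)) else 0) _ fun i b => ?_
    show psi k t M q ρ n (X (f i, g b)) = _
    rw [psi, aeval_X]
    show ∑ l ∈ Finset.range (ρ (g b + 1)), umat k t M q ρ n (f i) l * X (Sum.inr (l, g b)) = _
    have hle : ρ (g b + 1) ≤ ρ j := hm (hg b)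
    rw [← Finset.sum_subset (Finset.range_subset_range.2 hle)]
    · refine Finset.sum_congr rfl fun l hl => ?_
      rw [if_pos (Finset.mem_range.1 hl)]
    · intro l _ hl
      rw [if_neg (fun h => hl (Finset.mem_range.2 h)), mul_zero]

theorem psi_ne_zero (k : Type u) [Field k] {t M : ℕ} {ρ : ℕ → ℕ} {q n : ℕ}
    (hq : q < t) (hn : n < M) (hjump : ρ (n + 1) = ρ n + 1) :
    psi k t M q ρ n (X (⟨q, hq⟩, ⟨n, hn⟩)) ≠ 0 := by
  classical
  rw [psi, aeval_X]
  dsimp only
  rw [hjump, Finset.sum_range_succ, Finset.sum_eq_zero, zero_add]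
  · rw [umat, if_neg (by simp)]
    exact mul_ne_zero (X_ne_zero _) (X_ne_zero _)
  · intro l hl
    rw [umat, if_pos (Or.inr ⟨rfl, Finset.mem_range.1 hl⟩), zero_mul]

end Pool.Helper49.HE
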