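import Mathlib
import Pool.Agent.Helper49.HE.Defs
import Pool.Agent.Helper49.HE.Lin2
import Pool.Agent.Helper49.HE.Par1

/-!
Project HE (MP_f60bb9_ag).  Block HE-7: the radical of `famIdeal` over the polynomial ring is
prime (`n < M`, `ρ (n + 1) = ρ n + 1`), and does not contain `X q n`.

* `ker_le_radical`: let `P ⊇ famIdeal` be a prime, `L = FractionRing (S ⧸ P)`, `x p j` the image of `X (p, j)`:
  the hypotheses of `exists_factor` hold (minors map to minors).  The map `ev : W → L` over `k → L`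
  (`eval₂Hom`), `X (inl (p, l)) ↦ u p l`, `X (inr (l, j)) ↦ v l j` satisfies `ev ∘ psi = (S → L)` (check
  on variables: `umat p l ↦ u p l`), so `ker psi` goes to `0` in `L`, i.e. `ker psi ≤ P`
  (`S ⧸ P → L` is injective).  `Ideal.radical_eq_sInf`.
* `radical_famIdeal`: so the radical is `ker psi` (`Ideal.IsPrime.radical_le_iff`, `famIdeal_le_ker`),
  prime since `W` is a domain; `psi_ne_zero`.
* `famIdeal_le_constant`: `constantCoeff` maps the matrix to `0`, and every generator is an entry or a minor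
  of size `≥ 1` of the zero matrix.
-/

namespace Pool.Helper49.HE

open MvPolynomial

universe u

theorem ker_le_radical (k : Type u) [Field k] {t M : ℕ} {ρ : ℕ → ℕ} (hρ : Good ρ) {q n : ℕ}
    (hq : q < t) (hn : n < M) (hjump : ρ (n + 1) = ρ n + 1) :
    RingHom.ker (psi k t M q ρ n) ≤
      (famIdeal (fun (i : Fin t) (j : Fin M) => (X (i, j) : MvPolynomial (Fin t × Fin M) k))
        q ρ n).radical := by
  classical
  rw [Ideal.radical_eq_sInf]
  refine le_sInf fun P hP => ?_
  obtain ⟨hIP, hprime⟩ := hP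
  have := hprime
  set φ : MvPolynomial (Fin t × Fin M) k →+* FractionRing (MvPolynomial (Fin t × Fin M) k ⧸ P) :=
    (algebraMap (MvPolynomial (Fin t × Fin M) k ⧸ P)
      (FractionRing (MvPolynomial (Fin t × Fin M) k ⧸ P))).comp (Ideal.Quotient.mk P) with hφ
  have hφ0 : ∀ f, φ f = 0 → f ∈ P := by
    intro f hf
    rw [hφ, RingHom.comp_apply] at hf
    have h1 := (map_eq_zero_iff _ (IsFractionRing.injective (MvPolynomial (Fin t × Fin M) k ⧸ P)
      (FractionRing (MvPolynomial (Fin t × Fin M) k ⧸ P)))).mp hf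
    exact Ideal.Quotient.eq_zero_iff_mem.mp h1
  have hφP : ∀ f ∈ P, φ f = 0 := by
    intro f hf
    rw [hφ, RingHom.comp_apply, Ideal.Quotient.eq_zero_iff_mem.mpr hf, map_zero]
  obtain ⟨u, v, hu, huv⟩ := exists_factor (fun (p : Fin t) (j : Fin M) => φ (X (p, j))) hρ hq hn
    hjump (by
      intro p l h
      apply hφP
      apply hIP
      exact Ideal.mem_sup_left (Ideal.subset_span ⟨p, l, h, rfl⟩)) (by
      intro j hj f g hg
      have h1 : (Matrix.submatrix (fun (p : Fin t) (j : Fin M) => φ (X (p, j))) f g) =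
          φ.mapMatrix (Matrix.submatrix (fun (i : Fin t) (j : Fin M) =>
            (X (i, j) : MvPolynomial (Fin t × Fin M) k)) f g) := by
        ext a b
        rfl
      rw [h1, ← RingHom.map_det]
      apply hφP
      apply hIP
      exact Ideal.mem_sup_right (Ideal.subset_span ⟨j, hj, f, g, hg, rfl⟩))
  set ev : MvPolynomial ((Fin t × ℕ) ⊕ (ℕ × Fin M)) k →+*
      FractionRing (MvPolynomial (Fin t × Fin M) k ⧸ P) :=
    eval₂Hom (φ.comp C) (Sum.elim (fun pl => u pl.1 pl.2) (fun lj => v lj.1 lj.2)) with hev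
  have hev1 : ∀ p l, ev (umat k t M q ρ n p l) = u p l := by
    intro p l
    unfold umat
    split_ifs with h
    · rw [map_zero, hu p l h]
    · rw [hev, eval₂Hom_X']
      rfl
  have hcomp : ev.comp (psi k t M q ρ n : MvPolynomial (Fin t × Fin M) k →+*
      MvPolynomial ((Fin t × ℕ) ⊕ (ℕ × Fin M)) k) = φ := by
    refine MvPolynomial.ringHom_ext (fun a => ?_) (fun pj => ?_)
    · rw [RingHom.comp_apply, RingHom.coe_coe, psi, aeval_C, algebraMap_eq, hev, eval₂Hom_C]
      rfl
    · rw [RingHom.comp_apply, RingHom.coe_coe, psi, aeval_X, map_sum]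
      have h1 := huv pj.1 pj.2
      rw [h1]
      refine Finset.sum_congr rfl fun l _ => ?_
      rw [map_mul, hev1, hev, eval₂Hom_X']
      rfl
  intro f hf
  apply hφ0
  rw [← hcomp, RingHom.comp_apply]
  rw [RingHom.mem_ker] at hf
  change ev (psi k t M q ρ n f) = 0
  rw [hf, map_zero]

theorem radical_famIdeal (k : Type u) [Field k] {t M : ℕ} {ρ : ℕ → ℕ} (hρ : Good ρ) {q n : ℕ}
    (hq : q < t) (hn : n < M) (hjump : ρ (n + 1) = ρ n + 1) :
    (famIdeal (fun (i : Fin t) (j : Fin M) => (X (i, j) : MvPolynomial (Fin t × Fin M) k))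
      q ρ n).radical.IsPrime ∧
    (X (⟨q, hq⟩, ⟨n, hn⟩) : MvPolynomial (Fin t × Fin M) k) ∉
      (famIdeal (fun (i : Fin t) (j : Fin M) => (X (i, j) : MvPolynomial (Fin t × Fin M) k))
        q ρ n).radical := by
  have : (RingHom.ker (psi k t M q ρ n)).IsPrime := RingHom.ker_isPrime _
  have h : (famIdeal (fun (i : Fin t) (j : Fin M) => (X (i, j) : MvPolynomial (Fin t × Fin M) k))
      q ρ n).radical = RingHom.ker (psi k t M q ρ n) :=
    le_antisymm ((Ideal.IsPrime.radical_le_iff inferInstance).mpr (famIdeal_le_ker k hρ q n))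
      (ker_le_radical k hρ hq hn hjump)
  rw [h]
  refine ⟨inferInstance, fun h1 => ?_⟩
  exact psi_ne_zero k hq hn hjump ((RingHom.mem_ker).mp h1)

theorem famIdeal_le_constant (k : Type u) [Field k] {t M : ℕ} (ρ : ℕ → ℕ) (q n : ℕ) :
    famIdeal (fun (i : Fin t) (j : Fin M) => (X (i, j) : MvPolynomial (Fin t × Fin M) k))
      q ρ n ≤ RingHom.ker (constantCoeff : MvPolynomial (Fin t × Fin M) k →+* k) := by
  refine sup_le (Ideal.span_le.mpr ?_) (Ideal.span_le.mpr ?_)
  · rintro d ⟨p, l, _, rfl⟩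
    change constantCoeff (X (p, l)) = 0
    exact constantCoeff_X k _
  · rintro d ⟨j, _, f, g, _, rfl⟩
    change constantCoeff _ = 0
    rw [RingHom.map_det]
    have h1 : (constantCoeff : MvPolynomial (Fin t × Fin M) k →+* k).mapMatrix
        (Matrix.submatrix (fun (i : Fin t) (j : Fin M) =>
          (X (i, j) : MvPolynomial (Fin t × Fin M) k)) f g) = 0 := by
      ext a b
      exact constantCoeff_X k _
    rw [h1]
    exact Matrix.det_zero

end Pool.Helper49.HE
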