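import Mathlib
import Pool.Agent.Helper49.HE.Defs
import Pool.Agent.Helper49.HE.Fam1
import Pool.Agent.Helper49.HE.Par
import Pool.Agent.Helper49.DP.RingDefs

/-!
Project HE (MP_f60bb9_ag).  Block HE-8: localisation and two lemmas on radical ideals.

* `radical_map_localization`: `I ≤ 𝔭`, `I.radical` prime.  The prime `Q = I.radical` is contained in `𝔭`, so
  `Q A` is prime (`A = S_𝔭`) with contraction `Q` (`IsLocalization.isPrime_of_isPrime_disjoint`,
  `IsLocalization.comap_map_of_isPrime_disjoint`), and `(I A).radical = Q A`: `I A ≤ Q A` prime, and a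
  generator of `Q A` has a power in `I A`.
* `isPrime_of_radical`: `P = I.radical`.  `P ≤ (I ⊔ (x)).radical = I ⊔ (x)`: for `p ∈ P`, `p = i + x a`,
  `x a ∈ P`, `a ∈ P`.  So `P ≤ I ⊔ 𝔪 • P` and `P ≤ I` by Nakayama
  (`Submodule.le_of_le_smul_of_le_jacobson_bot`, `P` finitely generated).
* `isRadical_of_mul`: if `a ^ n ∈ I` then `a ∈ I'` and `a ∈ I ⊔ (x)`, `a = i + x b`, `x b ∈ I'`, `b ∈ I'`, `x b ∈ I`.
* `radical_famIdeal_loc`: from `radical_famIdeal`, `famIdeal_le_constant`, `famIdeal_map`.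
* `zIdeal_all`: the rows `< t` generate the maximal ideal; `famIdeal X0 t ρ n = 𝔪`.
-/

namespace Pool.Helper49.HE

open Pool.Helper49.DP MvPolynomial

universe u

theorem radical_map_localization {S : Type u} [CommRing S] (𝔭 : Ideal S) [𝔭.IsPrime]
    {I : Ideal S} (hI : I ≤ 𝔭) (hr : I.radical.IsPrime) :
    (I.map (algebraMap S (Localization.AtPrime 𝔭))).radical.IsPrime ∧
    ∀ x : S, x ∉ I.radical →
      algebraMap S (Localization.AtPrime 𝔭) x ∉
        (I.map (algebraMap S (Localization.AtPrime 𝔭))).radical := by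
  have hQ : I.radical ≤ 𝔭 := (Ideal.IsPrime.radical_le_iff inferInstance).mpr hI
  have hd : Disjoint (𝔭.primeCompl : Set S) (I.radical : Set S) := by
    rw [Set.disjoint_left]
    intro a ha hb
    exact ha (hQ hb)
  rw [← IsLocalization.map_radical 𝔭.primeCompl (Localization.AtPrime 𝔭) I]
  refine ⟨IsLocalization.isPrime_of_isPrime_disjoint 𝔭.primeCompl _ _ hr hd, ?_⟩
  intro x hx hx'
  apply hx
  have h := IsLocalization.under_map_of_isPrime_disjoint 𝔭.primeCompl
    (Localization.AtPrime 𝔭) hr hd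
  rw [← h]
  exact hx'

theorem isPrime_of_radical {A : Type u} [CommRing A] [IsNoetherianRing A] [IsLocalRing A]
    {I : Ideal A} {x : A} (hx : x ∈ IsLocalRing.maximalIdeal A) (hP : I.radical.IsPrime)
    (hxP : x ∉ I.radical) (hrad : (I ⊔ Ideal.span {x}).IsRadical) : I.IsPrime := by
  have key : I.radical ≤ I ⊔ IsLocalRing.maximalIdeal A • I.radical := by
    intro p hp
    have h1 : p ∈ I ⊔ Ideal.span {x} := hrad (Ideal.radical_mono le_sup_left hp)
    obtain ⟨i, hi, y, hy, rfl⟩ := Submodule.mem_sup.mp h1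
    obtain ⟨a, rfl⟩ := Ideal.mem_span_singleton'.mp hy
    have h2 : a * x ∈ I.radical := by
      have h3 := I.radical.sub_mem hp (Ideal.le_radical hi)
      rwa [add_sub_cancel_left] at h3
    have h4 : a ∈ I.radical := (hP.mem_or_mem h2).resolve_right hxP
    refine Submodule.mem_sup.mpr ⟨i, hi, a * x, ?_, rfl⟩
    rw [mul_comm, ← smul_eq_mul]
    exact Submodule.smul_mem_smul hx h4
  have h5 : I.radical ≤ I :=
    Submodule.le_of_le_smul_of_le_jacobson_bot (IsNoetherian.noetherian _)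
      (IsLocalRing.maximalIdeal_le_jacobson _) key
  have h6 : I.radical = I := le_antisymm h5 Ideal.le_radical
  rwa [h6] at hP

theorem isRadical_of_mul {A : Type u} [CommRing A] {I I' : Ideal A} {x : A} (hI' : I'.IsPrime)
    (hx : x ∉ I') (hle : I ≤ I') (hmul : ∀ a ∈ I', x * a ∈ I)
    (hrad : (I ⊔ Ideal.span {x}).IsRadical) : I.IsRadical := by
  intro a ha
  have h0 : a ∈ I' := by
    have h1 : a ∈ I'.radical := Ideal.radical_mono hle ha
    rwa [hI'.radical] at h1
  have h1 : a ∈ I ⊔ Ideal.span {x} := hrad (Ideal.radical_mono le_sup_left ha)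
  obtain ⟨i, hi, y, hy, rfl⟩ := Submodule.mem_sup.mp h1
  obtain ⟨b, rfl⟩ := Ideal.mem_span_singleton'.mp hy
  have h2 : b * x ∈ I' := by
    have h3 := I'.sub_mem h0 (hle hi)
    rwa [add_sub_cancel_left] at h3
  have h4 : b ∈ I' := (hI'.mem_or_mem h2).resolve_right hx
  have h5 := hmul b h4
  rw [mul_comm] at h5
  exact I.add_mem hi h5

/-- The matrix of the variables over the local ring. -/
noncomputable def varMatrix (t M : ℕ) (k : Type u) [Field k] :
    Matrix (Fin t) (Fin M) (Loc (Fin t × Fin M) k) :=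
  fun i j => algebraMap (MvPolynomial (Fin t × Fin M) k) _ (X (i, j))

theorem varMatrix_mem (t M : ℕ) (k : Type u) [Field k] (i : Fin t) (j : Fin M) :
    varMatrix t M k i j ∈ IsLocalRing.maximalIdeal (Loc (Fin t × Fin M) k) := by
  have h : (X (i, j) : MvPolynomial (Fin t × Fin M) k) ∈ irr (Fin t × Fin M) k := by
    change constantCoeff (X (i, j)) = 0
    exact constantCoeff_X k _
  exact (IsLocalization.AtPrime.to_map_mem_maximal_iff (Loc (Fin t × Fin M) k)
    (irr (Fin t × Fin M) k) _).mpr h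

private theorem famIdeal_loc32 (k : Type u) [Field k] {t M : ℕ} (q : ℕ) (ρ : ℕ → ℕ) (n : ℕ) :
    famIdeal (varMatrix t M k) q ρ n =
      (famIdeal (fun (i : Fin t) (j : Fin M) => (X (i, j) : MvPolynomial (Fin t × Fin M) k))
        q ρ n).map (algebraMap (MvPolynomial (Fin t × Fin M) k) (Loc (Fin t × Fin M) k)) := by
  exact (famIdeal_map (algebraMap (MvPolynomial (Fin t × Fin M) k) (Loc (Fin t × Fin M) k))
    (fun (i : Fin t) (j : Fin M) => (X (i, j) : MvPolynomial (Fin t × Fin M) k)) q ρ n).symm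

theorem radical_famIdeal_loc (k : Type u) [Field k] {t M : ℕ} {ρ : ℕ → ℕ} (hρ : Good ρ)
    {q n : ℕ} (hq : q < t) (hn : n < M) (hjump : ρ (n + 1) = ρ n + 1) :
    (famIdeal (varMatrix t M k) q ρ n).radical.IsPrime ∧
    varMatrix t M k ⟨q, hq⟩ ⟨n, hn⟩ ∉ (famIdeal (varMatrix t M k) q ρ n).radical := by
  obtain ⟨h1, h2⟩ := radical_famIdeal k hρ hq hn hjump
  obtain ⟨h3, h4⟩ := radical_map_localization (irr (Fin t × Fin M) k)
    (famIdeal_le_constant k ρ q n) h1
  rw [famIdeal_loc32]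
  exact ⟨h3, h4 _ h2⟩

theorem famIdeal_all (k : Type u) [Field k] {t M : ℕ} (ρ : ℕ → ℕ) (n : ℕ) :
    famIdeal (varMatrix t M k) t ρ n = IsLocalRing.maximalIdeal (Loc (Fin t × Fin M) k) := by
  apply le_antisymm
  · rw [famIdeal_loc32, ← Localization.AtPrime.map_eq_maximalIdeal]
    exact Ideal.map_mono (famIdeal_le_constant k ρ t n)
  · rw [← Localization.AtPrime.map_eq_maximalIdeal, famIdeal_loc32]
    refine Ideal.map_mono ?_
    intro f hf
    have hf0 : constantCoeff f = 0 := hf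
    have h1 : f ∈ Ideal.span (Set.range (X : Fin t × Fin M → MvPolynomial (Fin t × Fin M) k)) := by
      rw [← Set.image_univ, MvPolynomial.mem_ideal_span_X_image]
      intro m hm
      have hm0 : m ≠ 0 := by
        rintro rfl
        rw [MvPolynomial.mem_support_iff] at hm
        exact hm hf0
      obtain ⟨i, hi⟩ := Finsupp.ne_iff.mp hm0
      exact ⟨i, Set.mem_univ _, hi⟩
    refine (Ideal.span_le.mpr ?_) h1
    rintro _ ⟨⟨i, j⟩, rfl⟩
    exact Ideal.mem_sup_left (Ideal.subset_span ⟨i, j, Or.inl i.2, rfl⟩)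

end Pool.Helper49.HE
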