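import Mathlib
import Pool.Agent.Helper49.HE.Defs
import Pool.Agent.Helper49.HE.Fam1
import Pool.Agent.Helper49.HE.Fam2
import Pool.Agent.Helper49.HE.Loc
import Pool.Agent.Helper49.HE.Comb

/-!
Project HE (MP_f60bb9_ag).  All ideals of the family are radical, and those with
`ρ (n + 1) = ρ n + 1` are prime.
-/

namespace Pool.Helper49.HE

open Pool.Helper49.DP

universe u

theorem isPrime_of_isRadical_succ (k : Type u) [Field k] {t M : ℕ} {ρ : ℕ → ℕ} (hρ : Good ρ)
    {q n : ℕ} (hq : q < t) (hn : n < M) (hjump : ρ (n + 1) = ρ n + 1)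
    (h : (famIdeal (varMatrix t M k) q ρ (n + 1)).IsRadical) :
    (famIdeal (varMatrix t M k) q ρ n).IsPrime := by
  have hfin : IsNoetherianRing (Loc (Fin t × Fin M) k) :=
    IsLocalization.isNoetherianRing (irr (Fin t × Fin M) k).primeCompl _ inferInstance
  obtain ⟨h1, h2⟩ := radical_famIdeal_loc k hρ hq hn hjump
  refine isPrime_of_radical (varMatrix_mem t M k ⟨q, hq⟩ ⟨n, hn⟩) h1 h2 ?_
  rw [famIdeal_succ]
  exact h

theorem isRadical_famIdeal (k : Type u) [Field k] {t M : ℕ} :
    ∀ c q n : ℕ, q ≤ t → n ≤ M → (t - q) * (M + 1) + (M - n) = c → ∀ ρ : ℕ → ℕ, Good ρ →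
      (famIdeal (varMatrix t M k) q ρ n).IsRadical := by
  intro c
  induction c using Nat.strong_induction_on with
  | _ c ih =>
    intro q n hq hn hc ρ hρ
    rcases Nat.lt_or_ge q t with hqt | hqt
    · rcases Nat.lt_or_ge n M with hnM | hnM
      · -- the step
        have hstep : ∀ ρ' : ℕ → ℕ, Good ρ' →
            (famIdeal (varMatrix t M k) q ρ' (n + 1)).IsRadical := by
          intro ρ' hρ'
          refine ih ((t - q) * (M + 1) + (M - (n + 1))) ?_ q (n + 1) hq hnM rfl ρ' hρ'
          omega
        rcases (hρ.2 n).1.eq_or_lt with he | hlt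
        · rcases Nat.eq_zero_or_pos (ρ n) with h0 | h0
          · rw [famIdeal_zero _ q hnM (by rw [← he, h0])]
            exact hstep ρ hρ
          · have hlow : Good (low ρ n) := hρ.low h0 he.symm
            have hprime := isPrime_of_isRadical_succ k hlow hqt hnM (low_jump h0 he.symm)
              (hstep _ hlow)
            have hx : varMatrix t M k ⟨q, hqt⟩ ⟨n, hnM⟩ ∉
                famIdeal (varMatrix t M k) q (low ρ n) n := by
              have := (radical_famIdeal_loc k hlow hqt hnM (low_jump h0 he.symm)).2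
              intro hmem
              exact this (Ideal.le_radical hmem)
            refine isRadical_of_mul hprime hx (famIdeal_low_le _ _ _ _)
              (fun a ha => mul_mem_famIdeal _ hqt le_rfl hnM h0 he.symm ha) ?_
            rw [famIdeal_succ]
            exact hstep ρ hρ
        · have hjump : ρ (n + 1) = ρ n + 1 := le_antisymm (hρ.2 n).2 hlt
          exact (isPrime_of_isRadical_succ k hρ hqt hnM hjump (hstep ρ hρ)).isRadical
      · obtain rfl : n = M := le_antisymm hn hnM
        rw [famIdeal_end]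
        refine ih ((t - (q + 1)) * (n + 1) + (n - 0)) ?_ (q + 1) 0 hqt (Nat.zero_le _) rfl ρ hρ
        have h1 : t - q = (t - (q + 1)) + 1 := by omega
        have h2 : (t - q) * (n + 1) = (t - (q + 1)) * (n + 1) + (n + 1) := by
          rw [h1]; ring
        omega
    · obtain rfl : q = t := le_antisymm hq hqt
      rw [famIdeal_all]
      exact (IsLocalRing.maximalIdeal.isMaximal _).isPrime.isRadical

theorem isPrime_famIdeal (k : Type u) [Field k] {t M : ℕ} {ρ : ℕ → ℕ} (hρ : Good ρ)
    {q n : ℕ} (hq : q < t) (hn : n < M) (hjump : ρ (n + 1) = ρ n + 1) :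
    (famIdeal (varMatrix t M k) q ρ n).IsPrime ∧
      varMatrix t M k ⟨q, hq⟩ ⟨n, hn⟩ ∉ famIdeal (varMatrix t M k) q ρ n :=
  ⟨isPrime_of_isRadical_succ k hρ hq hn hjump
    (isRadical_famIdeal k _ q (n + 1) hq.le hn rfl ρ hρ),
    fun hmem => (radical_famIdeal_loc k hρ hq hn hjump).2 (Ideal.le_radical hmem)⟩

end Pool.Helper49.HE
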