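import Mathlib
import Pool.Agent.Helper49.HE.RadInd
import Pool.Agent.Helper49.HE.Fam3
import Pool.Agent.Helper49.HE.Dep

/-!
Project HE (MP_f60bb9_ag).  The depth of the quotients by the ideals of the family, and the
Hochster–Eagon theorem for the ideals of minors (localised at the origin).
-/

namespace Pool.Helper49.HE

open Pool.Helper49.DP

universe u

theorem gradeGE_zero {A : Type u} [CommRing A] (J : Ideal A) (E : Type u) [AddCommGroup E]
    [Module A E] : GradeGE J E 0 :=
  ⟨[], rfl, by simp, RingTheory.Sequence.IsWeaklyRegular.nil A E⟩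

theorem famIdeal_flat {A : Type u} [CommRing A] {t M : ℕ} (X : Matrix (Fin t) (Fin M) A)
    {ρ : ℕ → ℕ} (hρ : Good ρ) (q : ℕ) : ∀ n : ℕ, n ≤ M → ρ n = 0 →
      famIdeal X q ρ 0 = famIdeal X q ρ n := by
  intro n
  induction n with
  | zero => intros; rfl
  | succ n ih =>
    intro hn h0
    have h1 : ρ n = 0 := Nat.le_zero.1 (h0 ▸ hρ.mono (Nat.le_succ n))
    rw [ih (Nat.le_of_succ_le hn) h1, famIdeal_zero X q hn h0]

theorem exists_last {ρ : ℕ → ℕ} (hρ : Good ρ) {n M : ℕ} (hn : n + 1 < M)
    (h : ρ (n + 1 + 1) = ρ (n + 1)) :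
    ∃ n', n + 1 < n' ∧ n' ≤ M ∧ ρ n' = ρ (n + 1) ∧ (n' < M → ρ (n' + 1) = ρ n' + 1) := by
  classical
  refine ⟨Nat.findGreatest (fun l => ρ l = ρ (n + 1)) M, ?_, Nat.findGreatest_le M, ?_, ?_⟩
  · exact lt_of_lt_of_le (Nat.lt_succ_self (n + 1))
      (Nat.le_findGreatest (P := fun l => ρ l = ρ (n + 1)) hn h)
  · exact Nat.findGreatest_spec (P := fun l => ρ l = ρ (n + 1)) hn.le rfl
  · intro hlt
    have h1 : ρ (Nat.findGreatest (fun l => ρ l = ρ (n + 1)) M) = ρ (n + 1) :=
      Nat.findGreatest_spec (P := fun l => ρ l = ρ (n + 1)) hn.le rfl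
    have h2 : ¬ ρ (Nat.findGreatest (fun l => ρ l = ρ (n + 1)) M + 1) = ρ (n + 1) :=
      Nat.findGreatest_is_greatest (P := fun l => ρ l = ρ (n + 1)) (Nat.lt_succ_self _) hlt
    have h3 := hρ.2 (Nat.findGreatest (fun l => ρ l = ρ (n + 1)) M)
    omega

/-- One row: the statement for `q + 1` implies the statement for `q`. -/
theorem grade_step (k : Type u) [Field k] {t M q : ℕ} (hq : q < t)
    (hZ : ∀ ρ : ℕ → ℕ, Good ρ → ρ M ≤ t - (q + 1) →
      GradeGE (IsLocalRing.maximalIdeal (Loc (Fin t × Fin M) k))
        (Loc (Fin t × Fin M) k ⧸ famIdeal (varMatrix t M k) (q + 1) ρ 0)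
        (dimF t M (q + 1) ρ 0)) :
    ∀ c n : ℕ, n < M → M - n = c → ∀ ρ : ℕ → ℕ, Good ρ → ρ M ≤ t - q → ρ (n + 1) = ρ n + 1 →
      GradeGE (IsLocalRing.maximalIdeal (Loc (Fin t × Fin M) k))
        (Loc (Fin t × Fin M) k ⧸ famIdeal (varMatrix t M k) q ρ n) (dimF t M q ρ n) := by
  have hfin : IsNoetherianRing (Loc (Fin t × Fin M) k) :=
    IsLocalization.isNoetherianRing (irr (Fin t × Fin M) k).primeCompl _ inferInstance
  have hEnd : ∀ ρ : ℕ → ℕ, Good ρ → ρ M < t - q →
      GradeGE (IsLocalRing.maximalIdeal (Loc (Fin t × Fin M) k))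
        (Loc (Fin t × Fin M) k ⧸ famIdeal (varMatrix t M k) q ρ M) (dimF t M q ρ M) := by
    intro ρ hρ h
    rw [famIdeal_end, dimF_end]
    exact hZ ρ hρ (by omega)
  intro c
  induction c using Nat.strong_induction_on with
  | _ c ih =>
    intro n hn hc ρ hρ hM hjump
    -- the claim for the next ideal
    suffices hnext : GradeGE (IsLocalRing.maximalIdeal (Loc (Fin t × Fin M) k))
        (Loc (Fin t × Fin M) k ⧸ famIdeal (varMatrix t M k) q ρ (n + 1))
        (dimF t M q ρ (n + 1)) by
      obtain ⟨hprime, hx⟩ := isPrime_famIdeal k hρ hq hn hjump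
      rw [dimF_jump hq hn hjump]
      refine grade_of_prime (varMatrix_mem t M k ⟨q, hq⟩ ⟨n, hn⟩) hprime hx ?_
      rw [famIdeal_succ]
      exact hnext
    have hle : ρ (n + 1) ≤ ρ M := hρ.mono hn
    rcases Nat.lt_or_ge (n + 1) M with hn1 | hn1
    · rcases (hρ.2 (n + 1)).1.eq_or_lt with he | hlt
      · -- no jump at `n + 1`
        have hlow : Good (low ρ (n + 1)) := hρ.low (by omega) he.symm
        have hjlow : low ρ (n + 1) (n + 1 + 1) = low ρ (n + 1) (n + 1) + 1 :=
          low_jump (by omega) he.symm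
        have hlowM : low ρ (n + 1) M ≤ t - q := by
          rw [low_of_lt hn1]; exact hM
        have hI' := ih (M - (n + 1)) (by omega) (n + 1) hn1 rfl (low ρ (n + 1)) hlow hlowM hjlow
        have hdlow : dimF t M q (low ρ (n + 1)) (n + 1) = dimF t M q ρ (n + 1) :=
          dimF_low hρ hq hn1 hjump he.symm
        rcases (hle.trans hM).lt_or_eq with hlt' | heq'
        · -- the intersection
          obtain ⟨n', hn'1, hn'2, hn'3, hn'4⟩ := exists_last hρ hn1 he.symm
          have hlowM' : low ρ (n + 1) n' = ρ n' := low_of_lt hn'1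
          have g1 : GradeGE (IsLocalRing.maximalIdeal (Loc (Fin t × Fin M) k))
              (Loc (Fin t × Fin M) k ⧸ famIdeal (varMatrix t M k) q ρ n')
              (dimF t M q ρ (n + 1)) := by
            rw [dimF_flat hρ (by omega) hn'3]
            rcases hn'2.lt_or_eq with hlt2 | heq2
            · exact ih (M - n') (by omega) n' hlt2 rfl ρ hρ hM (hn'4 hlt2)
            · rw [heq2]
              refine hEnd ρ hρ ?_
              rw [← heq2, hn'3]
              exact hlt'
          have g2 : GradeGE (IsLocalRing.maximalIdeal (Loc (Fin t × Fin M) k))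
              (Loc (Fin t × Fin M) k ⧸ famIdeal (varMatrix t M k) q (low ρ (n + 1)) n')
              (dimF t M q (low ρ (n + 1)) n') := by
            rcases hn'2.lt_or_eq with hlt2 | heq2
            · refine ih (M - n') (by omega) n' hlt2 rfl _ hlow hlowM ?_
              rw [hlowM', low_of_lt (by omega)]
              exact hn'4 hlt2
            · rw [heq2]
              refine hEnd _ hlow ?_
              rw [← heq2, hlowM', hn'3]
              exact hlt'
          have hd : dimF t M q ρ (n + 1) ≤ dimF t M q (low ρ (n + 1)) n' + 1 := by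
            rw [← hdlow, dimF_jump hq hn1 hjlow]
            refine Nat.succ_le_succ (le_of_eq ?_)
            refine dimF_flat hlow hn'1 ?_
            rw [hlowM', hn'3, hjlow, ← hjlow, low_of_lt (by omega)]
            exact he
          rw [hdlow] at hI'
          refine grade_inf (famIdeal_low_le _ _ _ _) (famIdeal_mono _ _ _ (by omega : n + 1 ≤ n'))
            ?_ hd hI' g1 ?_
          · intro f hf
            have hrad := isRadical_famIdeal k _ q (n + 1) hq.le hn rfl ρ hρ
            refine hrad ⟨2, ?_⟩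
            rw [pow_two]
            have hle2 : famIdeal (varMatrix t M k) q ρ n' ≤
                Submodule.comap (LinearMap.mulLeft (Loc (Fin t × Fin M) k) f)
                  (famIdeal (varMatrix t M k) q ρ (n + 1)) := by
              refine sup_le ?_ ?_
              · refine Ideal.span_le.2 ?_
                rintro d ⟨p, l, hpl, rfl⟩
                change f * varMatrix t M k p l ∈ famIdeal (varMatrix t M k) q ρ (n + 1)
                by_cases hpl' : (p : ℕ) < q ∨ ((p : ℕ) = q ∧ (l : ℕ) < n + 1)
                · exact Ideal.mul_mem_left _ _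
                    (Ideal.mem_sup_left (Ideal.subset_span ⟨p, l, hpl', rfl⟩))
                · have hp : (p : ℕ) = q := by omega
                  have hl : n + 1 ≤ (l : ℕ) := by omega
                  have hl' : (l : ℕ) < n' := by omega
                  have hpq : p = ⟨q, hq⟩ := Fin.ext hp
                  rw [mul_comm, hpq]
                  refine mul_mem_famIdeal _ hq hl l.2 (by omega) ?_ hf.1
                  refine le_antisymm ?_ (hρ.mono (by omega))
                  rw [← hn'3]
                  exact hρ.mono (by omega)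
              · intro d hd
                exact Ideal.mul_mem_left _ _ (Ideal.mem_sup_right hd)
            exact hle2 hf.2
          · rw [famIdeal_low_sup _ _ _ (by omega : n + 1 ≤ n')]
            exact g2
        · rw [famIdeal_low_full _ hρ hq (by omega : n + 1 ≤ M) heq', ← hdlow]
          exact hI'
      · -- a jump at `n + 1`
        exact ih (M - (n + 1)) (by omega) (n + 1) hn1 rfl ρ hρ hM (le_antisymm (hρ.2 _).2 hlt)
    · -- `n + 1 = M`
      have hn2 : n + 1 = M := le_antisymm hn hn1
      rcases hM.lt_or_eq with hlt | heq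
      · rw [hn2]
        exact hEnd ρ hρ hlt
      · rw [hn2, famIdeal_end, famIdeal_cut _ _ hq, dimF_cut hρ hq hn2 hjump (by rw [hn2, heq])]
        exact hZ _ (hρ.min _) (le_trans (min_le_right _ _) (by omega))

/-- The depth of the quotient by `famIdeal X q ρ 0`. -/
theorem grade_famIdeal (k : Type u) [Field k] {t M : ℕ} : ∀ c q : ℕ, q ≤ t → t - q = c →
    ∀ ρ : ℕ → ℕ, Good ρ → ρ M ≤ t - q →
      GradeGE (IsLocalRing.maximalIdeal (Loc (Fin t × Fin M) k))
        (Loc (Fin t × Fin M) k ⧸ famIdeal (varMatrix t M k) q ρ 0) (dimF t M q ρ 0) := by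
  intro c
  induction c with
  | zero =>
    intro q hq hc ρ hρ hM
    rw [dimF_zero hρ (by omega)]
    exact gradeGE_zero _ _
  | succ c ih =>
    intro q hq hc ρ hρ hM
    have hq' : q < t := by omega
    have hZ := ih (q + 1) hq' (by omega)
    classical
    -- the first jump
    by_cases h0 : ρ M = 0
    · rw [dimF_zero hρ h0]
      exact gradeGE_zero _ _
    · have hMpos : 0 < M := by
        rcases Nat.eq_zero_or_pos M with h | h
        · rw [h] at h0
          exact absurd hρ.1 h0
        · exact h
      have hs1 : ρ (Nat.findGreatest (fun l => ρ l = 0) M) = 0 :=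
        Nat.findGreatest_spec (P := fun l => ρ l = 0) (Nat.zero_le M) hρ.1
      have hs2 : Nat.findGreatest (fun l => ρ l = 0) M ≤ M := Nat.findGreatest_le M
      have hs3 : Nat.findGreatest (fun l => ρ l = 0) M < M := by
        refine lt_of_le_of_ne hs2 fun h => h0 ?_
        rw [h] at hs1
        exact hs1
      have hs4 : ¬ ρ (Nat.findGreatest (fun l => ρ l = 0) M + 1) = 0 :=
        Nat.findGreatest_is_greatest (P := fun l => ρ l = 0) (Nat.lt_succ_self _) hs3
      have hs5 := hρ.2 (Nat.findGreatest (fun l => ρ l = 0) M)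
      rw [famIdeal_flat _ hρ q _ hs2 hs1, dimF_flat hρ (Nat.zero_le _) (hs1.trans hρ.1.symm)]
      exact grade_step k hq' hZ _ _ hs3 rfl ρ hρ hM (by omega)

end Pool.Helper49.HE
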