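import Mathlib
import Pool.Agent.Helper49.HE.DepInd

/-!
Project HE (MP_f60bb9_ag).  The ideals of minors: depth and primality.
-/

namespace Pool.Helper49.HE

open Pool.Helper49.DP

universe u

/-- The Hochster–Eagon theorem: the depth of the quotient by the ideal of the `s × s` minors of the generic
`t × (m + 1)` matrix (localised at the origin). -/
theorem grade_idA (k : Type u) [Field k] {t m s : ℕ} (hs : 0 < s) (hst : s ≤ t)
    (hsm : s ≤ m + 1) :
    GradeGE (IsLocalRing.maximalIdeal (Loc (Fin t × Fin (m + 1)) k))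
      (Loc (Fin t × Fin (m + 1)) k ⧸ idA s (varMatrix t (m + 1) k))
      ((s - 1) * t + (m + 1 - (s - 1)) * (s - 1)) := by
  have h := grade_famIdeal k (t := t) (M := m + 1) t 0 (Nat.zero_le t) (Nat.sub_zero t) (rhoA s)
    (good_rhoA s) ((min_le_right _ _).trans (by omega))
  rw [dimF_rhoA (by omega), famIdeal_rhoA _ hs] at h
  exact h

theorem grade_idB (k : Type u) [Field k] {t m s : ℕ} (hs : 0 < s) (hst : s ≤ t)
    (hsm : s ≤ m) :
    GradeGE (IsLocalRing.maximalIdeal (Loc (Fin t × Fin (m + 1)) k))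
      (Loc (Fin t × Fin (m + 1)) k ⧸ idB s (varMatrix t (m + 1) k))
      ((s - 1) * t + (m - (s - 1)) * (s - 1) + t) := by
  have h := grade_famIdeal k (t := t) (M := m + 1) t 0 (Nat.zero_le t) (Nat.sub_zero t)
    (rhoB s m) (good_rhoB hs (by omega)) (by simp [rhoB]; omega)
  rw [dimF_rhoB hs (by omega), famIdeal_rhoB _ hs] at h
  exact h

/-- `I_B` is a prime ideal. -/
theorem isPrime_idB (k : Type u) [Field k] {t m s : ℕ} (hs : 0 < s) (hst : s ≤ t)
    (hsm : s ≤ m) : (idB s (varMatrix t (m + 1) k)).IsPrime := by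
  have h0 : idB s (varMatrix t (m + 1) k) = famIdeal (varMatrix t (m + 1) k) 0 (rhoB s m) 0 :=
    (famIdeal_rhoB _ hs).symm
  rw [h0]
  rcases Nat.lt_or_ge 1 s with h1 | h1
  · refine (isPrime_famIdeal k (good_rhoB hs (by omega)) (by omega : 0 < t) (Nat.succ_pos m)
      ?_).1
    unfold rhoB
    rw [if_pos (by omega : 0 + 1 ≤ m), if_pos (Nat.zero_le m)]
    omega
  · obtain rfl : s = 1 := le_antisymm h1 hs
    have h2 : famIdeal (varMatrix t (m + 1) k) 0 (rhoB 1 m) 0 =
        famIdeal (varMatrix t (m + 1) k) 0 (rhoB 1 m) m :=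
      famIdeal_flat _ (good_rhoB hs (by omega)) 0 m (Nat.le_succ m) (by simp [rhoB])
    rw [h2]
    exact (isPrime_famIdeal k (good_rhoB hs (by omega)) (by omega : 0 < t) (Nat.lt_succ_self m)
      (by simp [rhoB])).1

end Pool.Helper49.HE
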